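import Pool.Agent.Y766.R11.Stm

/-!
Statements for project R14: almost all of the `L(s, χθ)`, `θ` mod `p^m`, have a zero within
`K / log q` of `1/2 + it`.
-/

set_option autoImplicit false

namespace Pool.Agent.Y766.R14

open Finset
open Pool.Agent.Y766.R11 (MP Reg)

/-- BOR: a function without zeros in the unit disc (Borel-Caratheodory) -/
def S_BOR : Prop := ∃ τ η : ℝ, 0 < τ ∧ τ ≤ 1 / 100 ∧ 0 < η ∧ η ≤ 1 / 100 ∧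
  ∀ R : ℝ, 1 ≤ R → ∀ f : ℂ → ℂ, Differentiable ℂ f → (∀ w : ℂ, ‖w‖ ≤ 1 → f w ≠ 0) →
  (∀ w : ℂ, ‖w - 1 / 2‖ ≤ (1 - τ) / 2 → ‖f w‖ ≤ Real.exp (η * R) * ‖f (1 / 2)‖) →
  (∀ w : ℂ, ‖w‖ ≤ 1 / 2 → ‖f w‖ ≤ Real.exp (3 * R) * ‖f (1 / 2)‖) →
  ‖f (-(τ : ℂ))‖ < Real.exp (τ * R / 2) * ‖f (τ : ℂ)‖

/-- FEN: the functional equation in absolute value, close to the critical line -/
def S_FEN : Prop := ∀ T R : ℝ, ∃ q₀ : ℝ, ∀ (q : ℕ) [NeZero q], q₀ ≤ q → 1 < q →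
  ∀ χ : DirichletCharacter ℂ q, χ.IsPrimitive → ∀ t x : ℝ, |t| ≤ T → 0 ≤ x → x ≤ R →
  Real.exp x * ‖χ.LFunction (1 / 2 + (t : ℂ) * Complex.I + (x / Real.log q : ℝ))‖ ≤
    2 * ‖χ.LFunction (1 / 2 + (t : ℂ) * Complex.I - (x / Real.log q : ℝ))‖ ∧
  ‖χ.LFunction (1 / 2 + (t : ℂ) * Complex.I - (x / Real.log q : ℝ))‖ ≤
    2 * Real.exp x * ‖χ.LFunction (1 / 2 + (t : ℂ) * Complex.I + (x / Real.log q : ℝ))‖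

/-- ABS: counting the members of a family without zeros in the unit disc -/
def S_ABS : Prop := ∀ (ι : Type) [Fintype ι], ∀ (f : ι → ℂ → ℂ) (M : ι → ℂ) (P V ε R τ η : ℝ),
  0 < P → 0 < V → 0 < ε → 1 ≤ R → 0 < τ → τ ≤ 1 / 100 → 0 < η → η ≤ 1 / 100 →
  (Fintype.card ι : ℝ) ≤ P → (∀ i, Differentiable ℂ (f i)) →
  (∀ g : ℂ → ℂ, Differentiable ℂ g → (∀ w : ℂ, ‖w‖ ≤ 1 → g w ≠ 0) →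
    (∀ w : ℂ, ‖w - 1 / 2‖ ≤ (1 - τ) / 2 → ‖g w‖ ≤ Real.exp (η * R) * ‖g (1 / 2)‖) →
    (∀ w : ℂ, ‖w‖ ≤ 1 / 2 → ‖g w‖ ≤ Real.exp (3 * R) * ‖g (1 / 2)‖) →
    ‖g (-(τ : ℂ))‖ < Real.exp (τ * R / 2) * ‖g (τ : ℂ)‖) →
  (∑ i, ‖f i (1 / 2) * M i - 1‖ ^ 2 ≤ ε / 12 * P) →
  (∀ w : ℂ, 0 ≤ w.re → ‖w‖ ≤ 1 → ∑ i, ‖f i w * M i‖ ^ 2 ≤ V * P) →
  (∀ i, ∀ w : ℂ, w.re ≤ 0 → ‖w‖ ≤ 1 →
    ‖f i w‖ ≤ 2 * Real.exp R * ‖f i (-(starRingEnd ℂ) w)‖) →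
  (∀ i, Real.exp (τ * R / 2) * ‖f i (τ : ℂ)‖ ≤ ‖f i (-(τ : ℂ))‖) →
  6 * Real.sqrt V / (ε * τ) ≤ Real.exp (η * R) →
  24 * Real.sqrt V / ε ≤ Real.exp (2 * R) →
  (Nat.card {i // ∀ w : ℂ, ‖w‖ ≤ 1 → f i w ≠ 0} : ℝ) ≤ ε * P

/-- FMK: FM1 for all small `κ` -/
def S_FMK : Prop := ∀ δ : ℝ, 0 < δ → ∃ κ₀ : ℝ, 0 < κ₀ ∧ κ₀ ≤ 1 / 100 ∧
  ∀ κ : ℝ, 0 < κ → κ ≤ κ₀ → ∀ T Λ : ℝ, 0 < Λ →
  ∃ C c : ℝ, 0 < C ∧ 0 < c ∧ ∀ (p : ℕ) [Fact p.Prime], 7 ≤ p → ∃ ν₀ : ℕ,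
  ∀ (ν m : ℕ) (hmν : m < ν), ν₀ ≤ ν → (19 / 58 + δ) * ν ≤ m →
  ∀ χ : DirichletCharacter ℂ (p ^ ν), χ.IsPrimitive → ∀ s : ℂ, Reg ((p : ℝ) ^ ν) T Λ s →
    ∑ θ : DirichletCharacter ℂ (p ^ m),
      ‖(χ * DirichletCharacter.changeLevel (pow_dvd_pow p hmν.le) θ).LFunction s *
        MP (χ * DirichletCharacter.changeLevel (pow_dvd_pow p hmν.le) θ) κ s - 1‖ ^ 2 ≤
      C * Real.exp (-c * (s.re - 1 / 2) * (ν * Real.log p)) * (p : ℝ) ^ m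

/-- MSS: the mean square of `L` at `s` with the mollifier at a fixed point -/
def S_MSS : Prop := ∀ δ : ℝ, 0 < δ → ∃ κ₁ : ℝ, 0 < κ₁ ∧ κ₁ ≤ 1 / 100 ∧
  ∀ κ : ℝ, 0 < κ → κ ≤ κ₁ → ∀ T : ℝ, ∃ C : ℝ, 0 < C ∧ ∀ R : ℝ, 1 ≤ R →
  ∀ (p : ℕ) [Fact p.Prime], 7 ≤ p → ∃ ν₀ : ℕ,
  ∀ (ν m : ℕ) (hmν : m < ν), ν₀ ≤ ν → (19 / 58 + δ) * ν ≤ m →
  ∀ χ : DirichletCharacter ℂ (p ^ ν), χ.IsPrimitive → ∀ t : ℝ, |t| ≤ T →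
  ∀ z : ℂ, 0 ≤ z.re → ‖z‖ ≤ R →
    ∑ θ : DirichletCharacter ℂ (p ^ m),
      ‖(χ * DirichletCharacter.changeLevel (pow_dvd_pow p hmν.le) θ).LFunction
          (1 / 2 + (t : ℂ) * Complex.I + z / (ν * Real.log p : ℝ)) *
        MP (χ * DirichletCharacter.changeLevel (pow_dvd_pow p hmν.le) θ) κ
          (1 / 2 + (t : ℂ) * Complex.I + (R / 2 / (ν * Real.log p) : ℝ))‖ ^ 2 ≤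
      C * (1 + R) ^ 4 * Real.exp (4 * κ * R) * (p : ℝ) ^ m

/-- ZEX: almost all members have a zero close to `1/2 + it` -/
def S_ZEX : Prop := ∀ δ ε T : ℝ, 0 < δ → 0 < ε → ∃ K : ℝ, 0 < K ∧
  ∀ (p : ℕ) [Fact p.Prime], 7 ≤ p → ∃ ν₀ : ℕ,
  ∀ (ν m : ℕ) (hmν : m < ν), ν₀ ≤ ν → (19 / 58 + δ) * ν ≤ m →
  ∀ χ : DirichletCharacter ℂ (p ^ ν), χ.IsPrimitive → ∀ t : ℝ, |t| ≤ T →
    (Nat.card {θ : DirichletCharacter ℂ (p ^ m) // ∀ s : ℂ,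
      ‖s - (1 / 2 + (t : ℂ) * Complex.I)‖ ≤ K / (ν * Real.log p) →
      (χ * DirichletCharacter.changeLevel (pow_dvd_pow p hmν.le) θ).LFunction s ≠ 0} : ℝ) ≤
      ε * (p : ℝ) ^ m

end Pool.Agent.Y766.R14
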