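import Pool.Agent.Y766.R14.Stm
import Pool.Agent.Y766.R11.Stm2
import Pool.Agent.Y766.R10.Fin

/-!
The number of zeros at the scale `1 / log q` for almost all members of a coset.
-/

set_option autoImplicit false

namespace Pool.Agent.Y766.R14

open Finset Filter
open Pool.Agent.Y766.R3 (prim_mul)
open Pool.Agent.Y766.R10 (card_char)
open Pool.Agent.Y766.R11 (S_ZDF)

/-- CNT: the local counting law -/
def S_CNT : Prop := ∀ δ ε T : ℝ, 0 < δ → 0 < ε → ∃ c C Λ₀ : ℝ, 0 < c ∧ 0 < C ∧ 0 < Λ₀ ∧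
  ∀ Λ : ℝ, Λ₀ ≤ Λ → ∀ (p : ℕ) [Fact p.Prime], 7 ≤ p → ∃ ν₀ : ℕ,
  ∀ (ν m : ℕ) (hmν : m < ν), ν₀ ≤ ν → (19 / 58 + δ) * ν ≤ m →
  ∀ χ : DirichletCharacter ℂ (p ^ ν), χ.IsPrimitive → ∀ t : ℝ, |t| ≤ T →
  (Nat.card {θ : DirichletCharacter ℂ (p ^ m) // ¬ ∃ S : Finset ℂ,
    (∀ ρ : ℂ, ρ ∈ S ↔ 0 < ρ.re ∧ ρ.re < 1 ∧ |ρ.im - t| ≤ Λ / (ν * Real.log p) ∧
      (χ * DirichletCharacter.changeLevel (pow_dvd_pow p hmν.le) θ).LFunction ρ = 0) ∧
    (∃ S₀ ⊆ S, c * Λ ≤ S₀.card ∧ ∀ ρ ∈ S₀, |ρ.re - 1 / 2| ≤ C / (ν * Real.log p)) ∧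
    ((∑ ρ ∈ S, analyticOrderNatAt
      (χ * DirichletCharacter.changeLevel (pow_dvd_pow p hmν.le) θ).LFunction ρ : ℕ) : ℝ) ≤
      C * Λ} : ℝ) ≤ ε * (p : ℝ) ^ m

open Classical in
lemma markov {ι : Type} [Fintype ι] (g : ι → ℝ) (hg : ∀ i, 0 ≤ g i) {a b : ℝ} (ha : 0 < a)
    (h : ∑ i, g i ≤ b * a) : (((univ : Finset ι).filter (fun i => a ≤ g i)).card : ℝ) ≤ b := by
  have h1 : (((univ : Finset ι).filter (fun i => a ≤ g i)).card : ℝ) * a ≤ ∑ i, g i := by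
    calc _ = ∑ i ∈ (univ : Finset ι).filter (fun i => a ≤ g i), a := by
          rw [sum_const, nsmul_eq_mul]
      _ ≤ ∑ i ∈ (univ : Finset ι).filter (fun i => a ≤ g i), g i :=
          sum_le_sum fun i hi => (mem_filter.1 hi).2
      _ ≤ _ := sum_le_sum_of_subset_of_nonneg (filter_subset _ _) fun i _ _ => hg i
  exact le_of_mul_le_mul_right (h1.trans h) ha

lemma zeros_finite {q : ℕ} [NeZero q] (ψ : DirichletCharacter ℂ q) (h1 : ψ ≠ 1) (t x : ℝ) :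
    {ρ : ℂ | 0 < ρ.re ∧ ρ.re < 1 ∧ |ρ.im - t| ≤ x ∧ ψ.LFunction ρ = 0}.Finite := by
  by_contra hinf
  have hd : Differentiable ℂ ψ.LFunction := DirichletCharacter.differentiable_LFunction h1
  have hK : IsCompact (Set.Icc (0 : ℝ) 1 ×ℂ Set.Icc (t - x) (t + x)) :=
    isCompact_Icc.reProdIm isCompact_Icc
  have hsub : {ρ : ℂ | 0 < ρ.re ∧ ρ.re < 1 ∧ |ρ.im - t| ≤ x ∧ ψ.LFunction ρ = 0} ⊆
      Set.Icc (0 : ℝ) 1 ×ℂ Set.Icc (t - x) (t + x) := by
    rintro ρ ⟨h2, h3, h4, -⟩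
    rw [abs_le] at h4
    rw [Complex.mem_reProdIm]
    exact ⟨⟨h2.le, h3.le⟩, ⟨by linarith, by linarith⟩⟩
  obtain ⟨z, -, hz⟩ := Set.Infinite.exists_accPt_of_subset_isCompact hinf hK hsub
  have hfr : ∃ᶠ w in nhdsWithin z {z}ᶜ, ψ.LFunction w = 0 := by
    rw [accPt_iff_frequently] at hz
    rw [frequently_nhdsWithin_iff]
    refine hz.mono fun w hw => ⟨hw.2.2.2.2, ?_⟩
    exact hw.1
  have han : AnalyticOnNhd ℂ ψ.LFunction Set.univ := fun w _ => hd.analyticAt w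
  have h0 := han.eqOn_zero_of_preconnected_of_frequently_eq_zero isPreconnected_univ
    (Set.mem_univ z) hfr (Set.mem_univ (2 : ℂ))
  exact DirichletCharacter.LFunction_ne_zero_of_one_le_re ψ (s := 2) (Or.inl h1) (by norm_num) h0

open Classical in
theorem cnt (hZ : S_ZEX) (hD : S_ZDF) : S_CNT := by
  intro δ ε T hδ hε
  obtain ⟨K, hK, hZ⟩ := hZ δ (ε / 4) (T + 1) hδ (by positivity)
  obtain ⟨C₁, c₁, hC₁, hc₁, hD⟩ := hD δ (T + 1) 1 hδ one_pos
  refine ⟨1 / (8 * K), max (4 * C₁ / ε) K, max 1 (4 * K), by positivity, by positivity,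
    by positivity, ?_⟩
  intro Λ hΛ p hpF hp
  have hΛ1 : 1 ≤ Λ := (le_max_left _ _).trans hΛ
  have hΛK : 4 * K ≤ Λ := (le_max_right _ _).trans hΛ
  have hpp : p.Prime := hpF.out
  obtain ⟨ν₁, hZ⟩ := hZ p hp
  obtain ⟨ν₂, hD⟩ := hD p hp
  refine ⟨max (max ν₁ ν₂) (max ⌈6 * Λ + 6⌉₊ 1), fun ν m hmν hν hm χ hχ t ht => ?_⟩
  have hν1 : ν₁ ≤ ν := (le_max_left _ _).trans ((le_max_left _ _).trans hν)
  have hν2 : ν₂ ≤ ν := (le_max_right _ _).trans ((le_max_left _ _).trans hν)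
  have hν3 : ⌈6 * Λ + 6⌉₊ ≤ ν := (le_max_left _ _).trans ((le_max_right _ _).trans hν)
  have hν4 : 1 ≤ ν := (le_max_right _ _).trans ((le_max_right _ _).trans hν)
  have hZ := hZ ν m hmν hν1 hm χ hχ
  have hD := hD ν m hmν hν2 hm χ hχ
  have hν0 : ν ≠ 0 := by omega
  have hp1 : 1 < p := by omega
  have hq : 1 < p ^ ν := Nat.one_lt_pow hν0 hp1
  haveI : NeZero (p ^ ν) := ⟨by omega⟩
  have hp0 : (0 : ℝ) < p := by exact_mod_cast (by omega : 0 < p)
  have hlogp : 1 ≤ Real.log p := by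
    rw [Real.le_log_iff_exp_le hp0]
    have : (7 : ℝ) ≤ p := by exact_mod_cast hp
    linarith [Real.exp_one_lt_d9]
  obtain ⟨L, hLdef⟩ : ∃ L, L = (ν : ℝ) * Real.log p := ⟨_, rfl⟩
  have hLν : (ν : ℝ) ≤ L := by
    rw [hLdef]
    exact le_mul_of_one_le_right (Nat.cast_nonneg _) hlogp
  have hLΛ : 6 * Λ + 6 ≤ L := (Nat.ceil_le.1 hν3).trans hLν
  have hLpos : 0 < L := by linarith
  obtain ⟨ψ, hψ⟩ : ∃ ψ : DirichletCharacter ℂ (p ^ m) → DirichletCharacter ℂ (p ^ ν), ψ = fun θ =>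
    χ * DirichletCharacter.changeLevel (pow_dvd_pow p hmν.le) θ := ⟨_, rfl⟩
  have hψθ : ∀ θ, χ * DirichletCharacter.changeLevel (pow_dvd_pow p hmν.le) θ = ψ θ := fun θ => by
    rw [hψ]
  have hprim : ∀ θ, (ψ θ).IsPrimitive := fun θ => by
    rw [hψ]; exact prim_mul hpp hmν hχ θ
  simp only [hψθ] at hZ hD ⊢
  rw [← hLdef] at hZ hD ⊢
  have hne : ∀ θ, ψ θ ≠ 1 := by
    intro θ h
    have h5 : (ψ θ).conductor = p ^ ν := hprim θ
    rw [h, DirichletCharacter.conductor_one] at h5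
    omega
  have hpm : (0 : ℝ) < (p : ℝ) ^ m := by positivity
  -- the zeros
  obtain ⟨Z, hZd⟩ : ∃ Z : DirichletCharacter ℂ (p ^ m) → Finset ℂ, Z = fun θ =>
    (zeros_finite (ψ θ) (hne θ) t (Λ / L)).toFinset := ⟨_, rfl⟩
  have hZm : ∀ θ ρ, ρ ∈ Z θ ↔ 0 < ρ.re ∧ ρ.re < 1 ∧ |ρ.im - t| ≤ Λ / L ∧
      (ψ θ).LFunction ρ = 0 := by
    intro θ ρ
    rw [hZd, Set.Finite.mem_toFinset]
    rfl
  -- the upper bound
  obtain ⟨U, hU⟩ : ∃ U : DirichletCharacter ℂ (p ^ m) → ℕ, U = fun θ =>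
    ∑ ρ ∈ Z θ, analyticOrderNatAt (ψ θ).LFunction ρ := ⟨_, rfl⟩
  have hUθ : ∀ θ, U θ = ∑ ρ ∈ Z θ, analyticOrderNatAt (ψ θ).LFunction ρ := fun θ => by rw [hU]
  obtain ⟨tj, htj⟩ : ∃ tj : ℕ → ℝ, tj = fun j : ℕ => t - Λ / L + (2 * (j : ℝ) + 1) / L := ⟨_, rfl⟩
  have hUsum : ∑ θ, (U θ : ℝ) ≤ (⌊Λ⌋₊ + 1 : ℕ) * (C₁ * (p : ℝ) ^ m) := by
    have h1 : ∀ θ, U θ ≤ ∑ j ∈ range (⌊Λ⌋₊ + 1),
        ∑ ρ ∈ (Z θ).filter (fun ρ => |ρ.im - tj j| ≤ 1 / L),
          analyticOrderNatAt (ψ θ).LFunction ρ := by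
      intro θ
      rw [hUθ]
      have h2 : ∀ ρ ∈ Z θ, ∃ j ∈ range (⌊Λ⌋₊ + 1), |ρ.im - tj j| ≤ 1 / L := by
        intro ρ hρ
        obtain ⟨-, -, h3, -⟩ := (hZm θ ρ).1 hρ
        obtain ⟨y, hy⟩ : ∃ y, y = (ρ.im - t) * L + Λ := ⟨_, rfl⟩
        rw [abs_le] at h3
        have h4 : 0 ≤ y := by
          have := mul_le_mul_of_nonneg_right h3.1 hLpos.le
          rw [neg_mul, div_mul_cancel₀ _ hLpos.ne'] at this
          rw [hy]; linarith
        have h5 : y ≤ 2 * Λ := by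
          have := mul_le_mul_of_nonneg_right h3.2 hLpos.le
          rw [div_mul_cancel₀ _ hLpos.ne'] at this
          rw [hy]; linarith
        have h6 : (⌊y / 2⌋₊ : ℝ) ≤ y / 2 := Nat.floor_le (by linarith)
        have h7 : y / 2 < (⌊y / 2⌋₊ : ℝ) + 1 := Nat.lt_floor_add_one _
        refine ⟨⌊y / 2⌋₊, ?_, ?_⟩
        · rw [mem_range]
          exact Nat.lt_succ_of_le (Nat.floor_mono (by linarith))
        · have h8 : ρ.im - tj ⌊y / 2⌋₊ = (y - (2 * ⌊y / 2⌋₊ + 1)) / L := by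
            rw [htj, hy]
            field_simp
            ring
          rw [h8, abs_div, abs_of_pos hLpos]
          apply div_le_div_of_nonneg_right _ hLpos.le
          rw [abs_le]
          constructor <;> linarith
      calc ∑ ρ ∈ Z θ, analyticOrderNatAt (ψ θ).LFunction ρ ≤
          ∑ ρ ∈ Z θ, ∑ j ∈ range (⌊Λ⌋₊ + 1),
            (if |ρ.im - tj j| ≤ 1 / L then analyticOrderNatAt (ψ θ).LFunction ρ else 0) := by
            refine sum_le_sum fun ρ hρ => ?_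
            obtain ⟨j, hj, hj'⟩ := h2 ρ hρ
            refine le_trans ?_ (single_le_sum (f := fun j =>
              (if |ρ.im - tj j| ≤ 1 / L then analyticOrderNatAt (ψ θ).LFunction ρ else 0))
              (fun _ _ => Nat.zero_le _) hj)
            beta_reduce
            rw [if_pos hj']
        _ = _ := by
            rw [sum_comm]
            exact sum_congr rfl fun j _ => (sum_filter _ _).symm
    have h2 : ∑ θ, U θ ≤ ∑ j ∈ range (⌊Λ⌋₊ + 1), ∑ θ,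
        ∑ ρ ∈ (Z θ).filter (fun ρ => |ρ.im - tj j| ≤ 1 / L),
          analyticOrderNatAt (ψ θ).LFunction ρ := by
      rw [sum_comm]
      exact sum_le_sum fun θ _ => h1 θ
    have h3 : ∀ j ∈ range (⌊Λ⌋₊ + 1), ((∑ θ,
        ∑ ρ ∈ (Z θ).filter (fun ρ => |ρ.im - tj j| ≤ 1 / L),
          analyticOrderNatAt (ψ θ).LFunction ρ : ℕ) : ℝ) ≤ C₁ * (p : ℝ) ^ m := by
      intro j hj
      rw [mem_range] at hj
      have hj' : (j : ℝ) ≤ Λ := by
        have h4 : (j : ℝ) ≤ (⌊Λ⌋₊ : ℝ) := by exact_mod_cast Nat.lt_succ_iff.1 hj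
        exact h4.trans (Nat.floor_le (by linarith))
      have h5 := hD (tj j) (by
        rw [htj]
        have h6 : t - Λ / L + (2 * (j : ℝ) + 1) / L = t + (2 * j + 1 - Λ) / L := by ring
        beta_reduce
        rw [h6]
        refine (abs_add_le _ _).trans (add_le_add ht ?_)
        rw [abs_div, abs_of_pos hLpos, div_le_one hLpos, abs_le]
        have : (0 : ℝ) ≤ j := Nat.cast_nonneg j
        constructor <;> linarith) 0 le_rfl
        (fun θ => (Z θ).filter (fun ρ => |ρ.im - tj j| ≤ 1 / L)) (by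
          intro θ ρ hρ
          rw [mem_filter] at hρ
          obtain ⟨h6, h7, -, -⟩ := (hZm θ ρ).1 hρ.1
          refine ⟨h6, h7, ?_, hρ.2⟩
          rw [zero_div]
          exact abs_nonneg _)
      rw [mul_zero, Real.exp_zero, mul_one] at h5
      exact h5
    calc ∑ θ, (U θ : ℝ) = ((∑ θ, U θ : ℕ) : ℝ) := by push_cast; rfl
      _ ≤ ((∑ j ∈ range (⌊Λ⌋₊ + 1), ∑ θ,
        ∑ ρ ∈ (Z θ).filter (fun ρ => |ρ.im - tj j| ≤ 1 / L),
          analyticOrderNatAt (ψ θ).LFunction ρ : ℕ) : ℝ) := by exact_mod_cast h2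
      _ = ∑ j ∈ range (⌊Λ⌋₊ + 1), ((∑ θ,
        ∑ ρ ∈ (Z θ).filter (fun ρ => |ρ.im - tj j| ≤ 1 / L),
          analyticOrderNatAt (ψ θ).LFunction ρ : ℕ) : ℝ) := Nat.cast_sum _ _
      _ ≤ ∑ j ∈ range (⌊Λ⌋₊ + 1), C₁ * (p : ℝ) ^ m := sum_le_sum h3
      _ = _ := by rw [sum_const, card_range, nsmul_eq_mul]
  have hB2 : (((univ : Finset (DirichletCharacter ℂ (p ^ m))).filter
      (fun θ => 4 * C₁ / ε * Λ ≤ (U θ : ℝ))).card : ℝ) ≤ ε / 2 * (p : ℝ) ^ m := by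
    apply markov (fun θ => (U θ : ℝ)) (fun θ => Nat.cast_nonneg _) (by positivity)
    refine hUsum.trans ?_
    have h1 : ((⌊Λ⌋₊ + 1 : ℕ) : ℝ) ≤ 2 * Λ := by
      push_cast
      have := Nat.floor_le (by linarith : 0 ≤ Λ)
      linarith
    calc ((⌊Λ⌋₊ + 1 : ℕ) : ℝ) * (C₁ * (p : ℝ) ^ m) ≤ 2 * Λ * (C₁ * (p : ℝ) ^ m) := by gcongr
      _ = ε / 2 * (p : ℝ) ^ m * (4 * C₁ / ε * Λ) := by
          field_simp
          ring
  -- the lower bound
  obtain ⟨N, hN⟩ : ∃ N : ℕ, N = ⌊Λ / (2 * K)⌋₊ := ⟨_, rfl⟩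
  have hN1 : (N : ℝ) ≤ Λ / (2 * K) := by rw [hN]; exact Nat.floor_le (by positivity)
  have hN2 : Λ / (2 * K) < (N : ℝ) + 1 := by rw [hN]; exact Nat.lt_floor_add_one _
  have hNK : 2 * K * N ≤ Λ := by
    rw [le_div_iff₀ (by positivity)] at hN1
    linarith
  have hNc : 1 / (8 * K) * Λ ≤ (N : ℝ) / 2 := by
    have h1 : 1 ≤ Λ / (4 * K) := by rw [le_div_iff₀ (by positivity)]; linarith
    have h2 : Λ / (2 * K) = Λ / (4 * K) + Λ / (4 * K) := by field_simp; ring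
    have h3 : 1 / (8 * K) * Λ = Λ / (4 * K) / 2 := by field_simp; ring
    rw [h3]
    linarith
  have hNpos : 0 < (N : ℝ) := by
    have : 0 < 1 / (8 * K) * Λ := by positivity
    linarith
  obtain ⟨sj, hsj⟩ : ∃ sj : ℕ → ℝ, sj = fun j : ℕ => t - Λ / L + (3 * (j : ℝ) + 1) * K / L := ⟨_, rfl⟩
  obtain ⟨Q, hQ⟩ : ∃ Q : DirichletCharacter ℂ (p ^ m) → ℕ → Prop, Q = fun θ j =>
    ∀ s : ℂ, ‖s - (1 / 2 + (sj j : ℂ) * Complex.I)‖ ≤ K / L → (ψ θ).LFunction s ≠ 0 := ⟨_, rfl⟩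
  have hQc : ∀ j ∈ range N, (((univ : Finset (DirichletCharacter ℂ (p ^ m))).filter
      (fun θ => Q θ j)).card : ℝ) ≤ ε / 4 * (p : ℝ) ^ m := by
    intro j hj
    rw [mem_range] at hj
    have hj' : (j : ℝ) + 1 ≤ N := by exact_mod_cast hj
    have h1 := hZ (sj j) (by
      rw [hsj]
      have h6 : t - Λ / L + (3 * (j : ℝ) + 1) * K / L = t + ((3 * j + 1) * K - Λ) / L := by ring
      beta_reduce
      rw [h6]
      refine (abs_add_le _ _).trans (add_le_add ht ?_)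
      rw [abs_div, abs_of_pos hLpos, div_le_one hLpos, abs_le]
      have h7 : (0 : ℝ) ≤ j := Nat.cast_nonneg j
      have h8 := mul_nonneg h7 hK.le
      have h9 := mul_le_mul_of_nonneg_left hj' hK.le
      constructor <;> nlinarith)
    refine le_trans (le_of_eq ?_) h1
    rw [Nat.card_eq_fintype_card, Fintype.card_subtype, hQ]
  obtain ⟨V, hV⟩ : ∃ V : DirichletCharacter ℂ (p ^ m) → ℕ, V = fun θ =>
    ((range N).filter (fun j => Q θ j)).card := ⟨_, rfl⟩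
  have hB1 : (((univ : Finset (DirichletCharacter ℂ (p ^ m))).filter
      (fun θ => (N : ℝ) / 2 ≤ (V θ : ℝ))).card : ℝ) ≤ ε / 2 * (p : ℝ) ^ m := by
    apply markov (fun θ => (V θ : ℝ)) (fun θ => Nat.cast_nonneg _) (by positivity)
    have h1 : ∑ θ, (V θ : ℝ) = ∑ j ∈ range N, (((univ : Finset (DirichletCharacter ℂ
        (p ^ m))).filter (fun θ => Q θ j)).card : ℝ) := by
      have h2 : ∀ θ, (V θ : ℝ) = ∑ j ∈ range N, (if Q θ j then (1 : ℝ) else 0) := by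
        intro θ
        rw [sum_boole, hV]
      simp only [h2]
      rw [sum_comm]
      refine sum_congr rfl fun j _ => ?_
      rw [sum_boole]
    rw [h1]
    refine (sum_le_sum hQc).trans ?_
    rw [sum_const, card_range, nsmul_eq_mul]
    apply le_of_eq
    ring
  have hlow : ∀ θ, (V θ : ℝ) < (N : ℝ) / 2 → 1 / (8 * K) * Λ ≤
      (((Z θ).filter (fun ρ => |ρ.re - 1 / 2| ≤ K / L)).card : ℝ) := by
    intro θ hθ
    have h1 : (V θ : ℝ) + (((range N).filter (fun j => ¬ Q θ j)).card : ℝ) = N := by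
      rw [hV]
      have := card_filter_add_card_filter_not (s := range N) (fun j => Q θ j)
      rw [card_range] at this
      exact_mod_cast this
    have hex : ∀ j : ℕ, ∃ s : ℂ, ¬ Q θ j →
        ‖s - (1 / 2 + (sj j : ℂ) * Complex.I)‖ ≤ K / L ∧ (ψ θ).LFunction s = 0 := by
      intro j
      by_cases h : Q θ j
      · exact ⟨0, fun h' => absurd h h'⟩
      · have h' := h
        rw [hQ] at h'
        push Not at h'
        obtain ⟨s, hs1, hs2⟩ := h'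
        exact ⟨s, fun _ => ⟨hs1, hs2⟩⟩
    choose ρ hρ using hex
    have him : ∀ j, ¬ Q θ j → |(ρ j).im - sj j| ≤ K / L := by
      intro j hj
      have h2 := (Complex.abs_im_le_norm _).trans (hρ j hj).1
      simpa using h2
    have hre : ∀ j, ¬ Q θ j → |(ρ j).re - 1 / 2| ≤ K / L := by
      intro j hj
      have h2 := (Complex.abs_re_le_norm _).trans (hρ j hj).1
      simpa using h2
    have hKL : K / L ≤ 1 / 4 := by
      rw [div_le_iff₀ hLpos]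
      linarith
    have h2 : ((range N).filter (fun j => ¬ Q θ j)).card ≤
        ((Z θ).filter (fun ρ => |ρ.re - 1 / 2| ≤ K / L)).card := by
      apply card_le_card_of_injOn ρ
      · intro j hj
        have hj := mem_filter.1 (mem_coe.1 hj)
        have hjN : (j : ℝ) + 1 ≤ N := by exact_mod_cast mem_range.1 hj.1
        apply mem_coe.2
        rw [mem_filter, hZm]
        refine ⟨?_, hre j hj.2⟩
        have e1 := abs_le.1 (hre j hj.2)
        have e2 := abs_le.1 (him j hj.2)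
        refine ⟨by linarith, by linarith, ?_, (hρ j hj.2).2⟩
        have e3 : sj j - t = ((3 * j + 1) * K - Λ) / L := by rw [hsj]; ring
        have h7 : (0 : ℝ) ≤ j := Nat.cast_nonneg j
        have h8 := mul_nonneg h7 hK.le
        have h9 := mul_le_mul_of_nonneg_left hjN hK.le
        have e4 : (-(Λ) + K) / L ≤ ((3 * j + 1) * K - Λ) / L := by
          apply div_le_div_of_nonneg_right _ hLpos.le
          nlinarith
        have e5 : ((3 * j + 1) * K - Λ) / L ≤ (Λ - K) / L := by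
          apply div_le_div_of_nonneg_right _ hLpos.le
          nlinarith
        have e6 : (-(Λ) + K) / L = -(Λ / L) + K / L := by ring
        have e7 : (Λ - K) / L = Λ / L - K / L := by ring
        rw [abs_le]
        constructor <;> linarith
      · intro i hi j hj hij
        have hi := (mem_filter.1 (mem_coe.1 hi)).2
        have hj := (mem_filter.1 (mem_coe.1 hj)).2
        have e1 := abs_le.1 (him i hi)
        have e2 := abs_le.1 (him j hj)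
        rw [hij] at e1
        have e3 : |sj i - sj j| ≤ 2 * (K / L) := by
          rw [abs_le]
          constructor <;> linarith
        have e4 : sj i - sj j = 3 * ((i : ℝ) - j) * (K / L) := by rw [hsj]; ring
        rw [e4, abs_mul, abs_mul, abs_of_pos (by norm_num : (0 : ℝ) < 3),
          abs_of_pos (by positivity : 0 < K / L)] at e3
        have e5 : 3 * |(i : ℝ) - j| ≤ 2 := le_of_mul_le_mul_right e3 (by positivity)
        by_contra hne'
        have e6 : (1 : ℝ) ≤ |(i : ℝ) - j| := by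
          have : (1 : ℤ) ≤ |(i : ℤ) - j| := Int.one_le_abs (by omega)
          exact_mod_cast this
        linarith
    have h3 : (((range N).filter (fun j => ¬ Q θ j)).card : ℝ) ≤
        ((Z θ).filter (fun ρ => |ρ.re - 1 / 2| ≤ K / L)).card := by
      exact_mod_cast h2
    linarith
  -- conclusion
  rw [Nat.card_eq_fintype_card, Fintype.card_subtype]
  have hsub : ((univ : Finset (DirichletCharacter ℂ (p ^ m))).filter (fun θ => ¬ ∃ S : Finset ℂ,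
      (∀ ρ : ℂ, ρ ∈ S ↔ 0 < ρ.re ∧ ρ.re < 1 ∧ |ρ.im - t| ≤ Λ / L ∧ (ψ θ).LFunction ρ = 0) ∧
      (∃ S₀ ⊆ S, 1 / (8 * K) * Λ ≤ S₀.card ∧ ∀ ρ ∈ S₀, |ρ.re - 1 / 2| ≤
        max (4 * C₁ / ε) K / L) ∧
      ((∑ ρ ∈ S, analyticOrderNatAt (ψ θ).LFunction ρ : ℕ) : ℝ) ≤
        max (4 * C₁ / ε) K * Λ)) ⊆ (univ.filter (fun θ => (N : ℝ) / 2 ≤ (V θ : ℝ))) ∪
      (univ.filter (fun θ => 4 * C₁ / ε * Λ ≤ (U θ : ℝ))) := by
    intro θ hθ
    rw [mem_filter] at hθ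
    rw [mem_union, mem_filter, mem_filter]
    by_contra h
    push Not at h
    apply hθ.2
    refine ⟨Z θ, hZm θ, ⟨_, filter_subset _ _, hlow θ (h.1 (mem_univ _)), ?_⟩, ?_⟩
    · intro ρ hρ
      refine (mem_filter.1 hρ).2.trans ?_
      exact div_le_div_of_nonneg_right (le_max_right _ _) hLpos.le
    · rw [← hUθ]
      refine (h.2 (mem_univ _)).le.trans ?_
      exact mul_le_mul_of_nonneg_right (le_max_left _ _) (by linarith)
  calc _ ≤ ((((univ : Finset (DirichletCharacter ℂ (p ^ m))).filter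
        (fun θ => (N : ℝ) / 2 ≤ (V θ : ℝ))) ∪
      (univ.filter (fun θ => 4 * C₁ / ε * Λ ≤ (U θ : ℝ)))).card : ℝ) := by
        exact_mod_cast card_le_card hsub
    _ ≤ (((univ : Finset (DirichletCharacter ℂ (p ^ m))).filter
        (fun θ => (N : ℝ) / 2 ≤ (V θ : ℝ))).card : ℝ) +
        (((univ : Finset (DirichletCharacter ℂ (p ^ m))).filter
        (fun θ => 4 * C₁ / ε * Λ ≤ (U θ : ℝ))).card : ℝ) := by
        exact_mod_cast card_union_le _ _
    _ ≤ ε / 2 * (p : ℝ) ^ m + ε / 2 * (p : ℝ) ^ m := add_le_add hB1 hB2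
    _ = _ := by ring

end Pool.Agent.Y766.R14
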