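import Pool.Agent.Y766.R14.Stm
import Pool.Agent.Y766.R10.Fin

/-!
Almost all members of a coset have a zero close to `1/2 + it`: the final steps.
-/

set_option autoImplicit false

namespace Pool.Agent.Y766.R14

open Finset Filter
open Pool.Agent.Y766.R3 (prim_mul)
open Pool.Agent.Y766.R10 (card_char)
open Pool.Agent.Y766.R11 (MP Reg)

lemma ev_pow {C a b : ℝ} (hC : 0 < C) (ha : 0 < a) (hb : 0 < b) :
    ∀ᶠ R : ℝ in atTop, C * (1 + R) ^ 4 ≤ b * Real.exp (a * R) := by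
  have h := (isLittleO_pow_exp_pos_mul_atTop 4 ha).def (by positivity : 0 < b / (16 * C))
  filter_upwards [h, eventually_ge_atTop 1] with R h1 h2
  rw [Real.norm_eq_abs, Real.norm_eq_abs, abs_of_nonneg (by positivity),
    abs_of_pos (Real.exp_pos _)] at h1
  have h3 : (1 + R) ^ 4 ≤ 16 * R ^ 4 := by
    calc (1 + R) ^ 4 ≤ (2 * R) ^ 4 := pow_le_pow_left₀ (by linarith) (by linarith) 4
      _ = _ := by ring
  calc C * (1 + R) ^ 4 ≤ C * (16 * R ^ 4) := mul_le_mul_of_nonneg_left h3 hC.le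
    _ ≤ C * (16 * (b / (16 * C) * Real.exp (a * R))) := by gcongr
    _ = _ := by field_simp

lemma exists_R {C C' c' ε τ η κ : ℝ} (hC : 0 < C) (hC' : 0 < C') (hc' : 0 < c') (hε : 0 < ε)
    (hτ : 0 < τ) (hη : 0 < η) (hη1 : η ≤ 1 / 100) (hκ : 8 * κ ≤ η) :
    ∃ R : ℝ, 1 ≤ R ∧ C' * Real.exp (-c' * (R / 2)) ≤ ε / 12 ∧
      6 * Real.sqrt (C * (1 + R) ^ 4 * Real.exp (4 * κ * R)) / (ε * τ) ≤ Real.exp (η * R) ∧
      24 * Real.sqrt (C * (1 + R) ^ 4 * Real.exp (4 * κ * R)) / ε ≤ Real.exp (2 * R) ∧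
      2 ≤ Real.exp (τ * R / 2) := by
  have e1 : ∀ᶠ R : ℝ in atTop, C' * Real.exp (-c' * (R / 2)) ≤ ε / 12 := by
    have h1 : Tendsto (fun R : ℝ => C' * Real.exp (-c' * (R / 2))) atTop (nhds (C' * 0)) := by
      apply Tendsto.const_mul
      apply Real.tendsto_exp_atBot.comp
      have : (fun R : ℝ => -c' * (R / 2)) = fun R : ℝ => (-c' / 2) * R := by
        funext R; ring
      rw [this]
      exact tendsto_id.const_mul_atTop_of_neg (by linarith)
    rw [mul_zero] at h1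
    exact (h1.eventually (gt_mem_nhds (by positivity : 0 < ε / 12))).mono fun _ h => le_of_lt h
  have e2 := ev_pow hC hη (by positivity : 0 < (ε * τ / 6) ^ 2)
  have e3 := ev_pow hC one_pos (by positivity : 0 < (ε / 24) ^ 2)
  have e4 : ∀ᶠ R : ℝ in atTop, 2 ≤ Real.exp (τ * R / 2) := by
    have h1 : Tendsto (fun R : ℝ => Real.exp (τ * R / 2)) atTop atTop := by
      apply Real.tendsto_exp_atTop.comp
      have : (fun R : ℝ => τ * R / 2) = fun R : ℝ => (τ / 2) * R := by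
        funext R; ring
      rw [this]
      exact tendsto_id.const_mul_atTop (by positivity)
    exact h1.eventually_ge_atTop 2
  obtain ⟨R, h1, h2, h3, h4, h5⟩ := (e1.and (e2.and (e3.and (e4.and
    (eventually_ge_atTop 1))))).exists
  have hκR : κ * R ≤ η * R / 8 := by nlinarith
  have hηR : η * R ≤ R / 100 := by nlinarith
  refine ⟨R, h5, h1, ?_, ?_, h4⟩
  · have h6 : Real.sqrt (C * (1 + R) ^ 4 * Real.exp (4 * κ * R)) ≤
        ε * τ / 6 * Real.exp (η * R) := by
      apply Real.sqrt_le_iff.2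
      refine ⟨by positivity, ?_⟩
      calc C * (1 + R) ^ 4 * Real.exp (4 * κ * R) ≤
          ((ε * τ / 6) ^ 2 * Real.exp (η * R)) * Real.exp (η * R) := by
            apply mul_le_mul h2 _ (Real.exp_pos _).le (by positivity)
            apply Real.exp_le_exp.2
            nlinarith
        _ = (ε * τ / 6 * Real.exp (η * R)) ^ 2 := by ring
    rw [div_le_iff₀ (by positivity)]
    linarith
  · have h6 : Real.sqrt (C * (1 + R) ^ 4 * Real.exp (4 * κ * R)) ≤
        ε / 24 * Real.exp (2 * R) := by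
      apply Real.sqrt_le_iff.2
      refine ⟨by positivity, ?_⟩
      calc C * (1 + R) ^ 4 * Real.exp (4 * κ * R) ≤
          ((ε / 24) ^ 2 * Real.exp (1 * R)) * Real.exp (3 * R) := by
            apply mul_le_mul h3 _ (Real.exp_pos _).le (by positivity)
            apply Real.exp_le_exp.2
            nlinarith
        _ = (ε / 24) ^ 2 * Real.exp (4 * R) := by
            rw [mul_assoc, ← Real.exp_add]
            congr 2
            ring
        _ = (ε / 24 * Real.exp (2 * R)) ^ 2 := by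
            rw [mul_pow, ← Real.exp_nat_mul]
            congr 2
            push_cast
            ring
    rw [div_le_iff₀ hε]
    linarith

/-- **ZEX** -/
theorem zex (hM : S_MSS) (hF : S_FMK) (hB : S_BOR) (hN : S_FEN) (hA : S_ABS) : S_ZEX := by
  intro δ ε T hδ hε
  obtain ⟨τ, η, hτ0, hτ1, hη0, hη1, hB⟩ := hB
  obtain ⟨κ₀, hκ₀, hκ₀1, hF⟩ := hF δ hδ
  obtain ⟨κ₁, hκ₁, hκ₁1, hM⟩ := hM δ hδ
  obtain ⟨κ, hκd⟩ : ∃ κ, κ = min (min κ₀ κ₁) (η / 8) := ⟨_, rfl⟩
  have hκ : 0 < κ := by rw [hκd]; positivity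
  have hκ0 : κ ≤ κ₀ := by rw [hκd]; exact (min_le_left _ _).trans (min_le_left _ _)
  have hκ1 : κ ≤ κ₁ := by rw [hκd]; exact (min_le_left _ _).trans (min_le_right _ _)
  have hκη : κ ≤ η / 8 := by rw [hκd]; exact min_le_right _ _
  obtain ⟨C, hC, hM⟩ := hM κ hκ hκ1 T
  obtain ⟨C', c', hC', hc', hF⟩ := hF κ hκ hκ0 T 1 one_pos
  obtain ⟨R, hR1, r1, r2, r3, r4⟩ := exists_R (κ := κ) hC hC' hc' hε hτ0 hη0 hη1 (by linarith)
  have hR0 : 0 < R := by linarith
  obtain ⟨q₀, hN⟩ := hN (T + 1) R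
  refine ⟨R, hR0, fun p hpF hp => ?_⟩
  have hpp : p.Prime := hpF.out
  obtain ⟨ν₁, hM⟩ := hM R hR1 p hp
  obtain ⟨ν₂, hF⟩ := hF p hp
  refine ⟨max (max ν₁ ν₂) (max ⌈q₀⌉₊ ⌈4 * R⌉₊), fun ν m hmν hν hm χ hχ t ht => ?_⟩
  have hν1 : ν₁ ≤ ν := (le_max_left _ _).trans ((le_max_left _ _).trans hν)
  have hν2 : ν₂ ≤ ν := (le_max_right _ _).trans ((le_max_left _ _).trans hν)
  have hν3 : ⌈q₀⌉₊ ≤ ν := (le_max_left _ _).trans ((le_max_right _ _).trans hν)
  have hν4 : ⌈4 * R⌉₊ ≤ ν := (le_max_right _ _).trans ((le_max_right _ _).trans hν)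
  have hM := hM ν m hmν hν1 hm χ hχ t ht
  have hF := hF ν m hmν hν2 hm χ hχ
  have hν0 : ν ≠ 0 := by omega
  have hp1 : 1 < p := by omega
  have hq : 1 < p ^ ν := Nat.one_lt_pow hν0 hp1
  have hcast : ((p ^ ν : ℕ) : ℝ) = (p : ℝ) ^ ν := by push_cast; rfl
  have hp0 : (0 : ℝ) < p := by exact_mod_cast (by omega : 0 < p)
  have hlog : Real.log ((p : ℝ) ^ ν) = ν * Real.log p := Real.log_pow _ _
  have hlogp : 1 ≤ Real.log p := by
    rw [Real.le_log_iff_exp_le hp0]
    have : (7 : ℝ) ≤ p := by exact_mod_cast hp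
    linarith [Real.exp_one_lt_d9]
  obtain ⟨L, hLdef⟩ : ∃ L, L = (ν : ℝ) * Real.log p := ⟨_, rfl⟩
  have hLν : (ν : ℝ) ≤ L := by
    rw [hLdef]
    exact le_mul_of_one_le_right (Nat.cast_nonneg _) hlogp
  have hνpos : (0 : ℝ) < ν := by exact_mod_cast Nat.pos_of_ne_zero hν0
  have hLpos : 0 < L := hνpos.trans_le hLν
  have hL4 : 4 * R ≤ L := (Nat.ceil_le.1 hν4).trans hLν
  have hqν : q₀ ≤ ((p ^ ν : ℕ) : ℝ) := by
    refine (Nat.ceil_le.1 hν3).trans ?_
    exact_mod_cast (Nat.lt_pow_self hp1).le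
  have hLc : (L : ℂ) ≠ 0 := by exact_mod_cast hLpos.ne'
  have hlq : Real.log ((p ^ ν : ℕ) : ℝ) = L := by rw [hcast, hlog, ← hLdef]
  obtain ⟨ψ, hψ⟩ : ∃ ψ : DirichletCharacter ℂ (p ^ m) → DirichletCharacter ℂ (p ^ ν), ψ = fun θ =>
    χ * DirichletCharacter.changeLevel (pow_dvd_pow p hmν.le) θ := ⟨_, rfl⟩
  have hψθ : ∀ θ, χ * DirichletCharacter.changeLevel (pow_dvd_pow p hmν.le) θ = ψ θ := fun θ => by
    rw [hψ]
  have hprim : ∀ θ, (ψ θ).IsPrimitive := fun θ => by
    rw [hψ]; exact prim_mul hpp hmν hχ θ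
  simp only [hψθ] at hM hF ⊢
  rw [← hLdef] at hM ⊢
  have hne : ∀ θ, ψ θ ≠ 1 := by
    intro θ h
    have h5 : (ψ θ).conductor = p ^ ν := hprim θ
    rw [h, DirichletCharacter.conductor_one] at h5
    omega
  have hLd : ∀ θ, Differentiable ℂ (ψ θ).LFunction :=
    fun θ => DirichletCharacter.differentiable_LFunction (hne θ)
  obtain ⟨s₀, hs₀⟩ : ∃ s₀ : ℂ, s₀ = 1 / 2 + (t : ℂ) * Complex.I := ⟨_, rfl⟩
  rw [← hs₀] at hM ⊢
  obtain ⟨f, hf⟩ : ∃ f : DirichletCharacter ℂ (p ^ m) → ℂ → ℂ, f = fun θ w =>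
    (ψ θ).LFunction (s₀ + w * R / L) := ⟨_, rfl⟩
  have hfw : ∀ θ w, f θ w = (ψ θ).LFunction (s₀ + w * R / L) := fun θ w => by rw [hf]
  have hpm : (0 : ℝ) < (p : ℝ) ^ m := by positivity
  have hFEN := fun θ => hN (p ^ ν) hqν hq (ψ θ) (hprim θ)
  simp only [hlq] at hFEN
  have key := hA (DirichletCharacter ℂ (p ^ m)) f
    (fun θ => MP (ψ θ) κ (s₀ + ((R / 2 / L : ℝ) : ℂ))) ((p : ℝ) ^ m)
    (C * (1 + R) ^ 4 * Real.exp (4 * κ * R)) ε R τ η hpm (by positivity) hε hR1 hτ0 hτ1 hη0 hη1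
    (card_char m) (by
      intro θ
      rw [hf]
      exact (hLd θ).comp (by fun_prop))
    (hB R hR1) (by
      have h1 := hF (s₀ + ((R / 2 / L : ℝ) : ℂ)) (by
        have hre : (s₀ + ((R / 2 / L : ℝ) : ℂ)).re = 1 / 2 + R / 2 / L := by
          rw [hs₀]; simp
        have him : (s₀ + ((R / 2 / L : ℝ) : ℂ)).im = t := by
          rw [hs₀]; simp
        have hRL : R / 2 / L ≤ 1 / 4 := by
          rw [div_le_iff₀ hLpos]
          linarith
        have hRL0 : 0 ≤ R / 2 / L := by positivity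
        refine ⟨?_, ?_, ?_⟩
        · rw [hlog, ← hLdef, hre]
          have : 0 ≤ 1 / L := by positivity
          linarith
        · rw [hre]; linarith
        · rw [him]; exact ht)
      have hre : (s₀ + ((R / 2 / L : ℝ) : ℂ)).re = 1 / 2 + R / 2 / L := by
        rw [hs₀]; simp
      rw [hre, ← hLdef] at h1
      have e1 : -c' * (1 / 2 + R / 2 / L - 1 / 2) * L = -c' * (R / 2) := by
        field_simp
        ring
      rw [e1] at h1
      have e2 : ∀ θ, f θ (1 / 2) = (ψ θ).LFunction (s₀ + ((R / 2 / L : ℝ) : ℂ)) := by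
        intro θ
        rw [hfw]
        congr 2
        push_cast
        ring
      simp only [e2]
      exact h1.trans (mul_le_mul_of_nonneg_right r1 hpm.le)) (by
      intro w hw hw1
      have h1 := hM (w * R) (by
        rw [Complex.mul_re, Complex.ofReal_re, Complex.ofReal_im, mul_zero, sub_zero]
        positivity) (by
        rw [norm_mul, Complex.norm_real, Real.norm_eq_abs, abs_of_pos hR0]
        nlinarith)
      simp only [hfw]
      exact h1) (by
      intro θ w hw hw1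
      obtain ⟨t', ht'⟩ : ∃ t' : ℝ, t' = t + w.im * R / L := ⟨_, rfl⟩
      obtain ⟨x, hx⟩ : ∃ x : ℝ, x = -w.re * R := ⟨_, rfl⟩
      have hx0 : 0 ≤ x := by rw [hx]; exact mul_nonneg (by linarith) hR0.le
      have hxR : x ≤ R := by
        rw [hx]
        have := (abs_le.1 ((Complex.abs_re_le_norm w).trans hw1)).1
        nlinarith
      have ht1 : |t'| ≤ T + 1 := by
        rw [ht']
        refine (abs_add_le _ _).trans (add_le_add ht ?_)
        rw [abs_div, abs_of_pos hLpos, div_le_one hLpos, abs_mul, abs_of_pos hR0]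
        have := (Complex.abs_im_le_norm w).trans hw1
        nlinarith
      have h1 := (hFEN θ t' x ht1 hx0 hxR).2
      have e1 : s₀ + w * R / L = 1 / 2 + (t' : ℂ) * Complex.I - ((x / L : ℝ) : ℂ) := by
        rw [hs₀, ht', hx]
        conv_lhs => rw [← Complex.re_add_im w]
        push_cast
        ring
      have e2 : s₀ + (-(starRingEnd ℂ) w) * R / L =
          1 / 2 + (t' : ℂ) * Complex.I + ((x / L : ℝ) : ℂ) := by
        rw [hs₀, ht', hx]
        have e3 : (starRingEnd ℂ) w = (w.re : ℂ) - (w.im : ℂ) * Complex.I := by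
          apply Complex.ext <;> simp
        rw [e3]
        push_cast
        ring
      rw [hfw, hfw, e1, e2]
      refine h1.trans ?_
      apply mul_le_mul_of_nonneg_right _ (norm_nonneg _)
      have := Real.exp_le_exp.2 hxR
      linarith) (by
      intro θ
      have h1 := (hFEN θ t (τ * R) (by linarith) (by positivity) (by nlinarith)).1
      have e1 : s₀ + (τ : ℂ) * R / L = 1 / 2 + (t : ℂ) * Complex.I + ((τ * R / L : ℝ) : ℂ) := by
        rw [hs₀]; push_cast; ring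
      have e2 : s₀ + (-(τ : ℂ)) * R / L =
          1 / 2 + (t : ℂ) * Complex.I - ((τ * R / L : ℝ) : ℂ) := by
        rw [hs₀]; push_cast; ring
      rw [hfw, hfw, e1, e2]
      have e3 : Real.exp (τ * R) = Real.exp (τ * R / 2) * Real.exp (τ * R / 2) := by
        rw [← Real.exp_add]; congr 1; ring
      rw [e3] at h1
      have h2 : 0 ≤ Real.exp (τ * R / 2) *
          ‖(ψ θ).LFunction (1 / 2 + (t : ℂ) * Complex.I + ((τ * R / L : ℝ) : ℂ))‖ := by positivity
      nlinarith [mul_le_mul_of_nonneg_right r4 h2]) r2 r3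
  refine le_trans ?_ key
  have hfin : Finite {θ : DirichletCharacter ℂ (p ^ m) // ∀ w : ℂ, ‖w‖ ≤ 1 → f θ w ≠ 0} :=
    inferInstance
  exact_mod_cast Nat.card_le_card_of_injective
    (fun θ : {θ : DirichletCharacter ℂ (p ^ m) // ∀ s : ℂ, ‖s - s₀‖ ≤ R / L →
      (ψ θ).LFunction s ≠ 0} =>
      (⟨θ.1, fun w hw => by
        rw [hfw]
        apply θ.2
        rw [add_sub_cancel_left, norm_div, norm_mul, Complex.norm_real, Complex.norm_real,
          Real.norm_eq_abs, Real.norm_eq_abs, abs_of_pos hR0, abs_of_pos hLpos]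
        apply div_le_div_of_nonneg_right _ hLpos.le
        nlinarith⟩ :
        {θ : DirichletCharacter ℂ (p ^ m) // ∀ w : ℂ, ‖w‖ ≤ 1 → f θ w ≠ 0}))
    (by
      intro a b h
      apply Subtype.ext
      exact congrArg (fun z => z.1) h)

end Pool.Agent.Y766.R14
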