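import Pool.Agent.Y474.R11.Fm1
import Pool.Agent.Y766.R14.Stm

/-!
FM1 for all small `κ`: the proof of `Pool.Agent.Y474.R11.fm1` with `κ` free.
-/

set_option autoImplicit false

namespace Pool.Agent.Y766.R14

open Finset Filter
open Pool.Agent.Y766.R10 (WG mw)
open Pool.Agent.Y766.R11
open Pool.Agent.Y474.R11
open Pool.Agent.Y785.R10 (om om_smooth om_zero om_le om_bound om_sum piece)

/-- **FMK** -/
theorem fmk (h0 : Pool.Agent.Y766.R11.S_AFS) (h1 : Pool.Agent.Y766.R11.S_MSR)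
    (h2 : Pool.Agent.Y766.R11.S_MSZ) : Pool.Agent.Y766.R14.S_FMK := by
  obtain ⟨D, hD, d1, d2⟩ := om_bound
  intro δ hδ
  obtain ⟨κ₁, η₁, k0, k1, k2, k3, h1⟩ := h1 δ hδ
  obtain ⟨κ₂, η₂, l0, l1, l2, l3, h2⟩ := h2 δ hδ
  refine ⟨min κ₁ κ₂, lt_min k0 l0, (min_le_left _ _).trans k1, ?_⟩
  intro κ hκ hκm
  have hκ1 : κ ≤ κ₁ := hκm.trans (min_le_left _ _)
  have hκ2 : κ ≤ κ₂ := hκm.trans (min_le_right _ _)
  have hκ100 : κ ≤ 1 / 100 := hκ1.trans k1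
  intro T Λ hΛ
  obtain ⟨C₁, hC₁, h1⟩ := h1 κ hκ hκ1 T Λ hΛ
  obtain ⟨C₂, hC₂, h2⟩ := h2 κ hκ hκ2 T Λ hΛ
  obtain ⟨C₀, q₀, hC₀, h0⟩ := h0 T Λ (κ / 3) hΛ (by positivity) (by linarith)
  obtain ⟨A1, hA1⟩ : ∃ A1, A1 = C₂ * ((C₀ * KK κ D + C₀ * KK κ D) ^ 2 * 2 +
    C₀ ^ 2 * (240000 * Real.exp (1 / 10))) := ⟨_, rfl⟩
  obtain ⟨A2, hA2⟩ : ∃ A2, A2 = ((⌊2 / κ⌋₊ + 4 : ℕ) : ℝ) ^ 2 *
    (C₁ * (C₀ * KK κ D) ^ 2 * (Real.exp (2 * Λ) + 1)) := ⟨_, rfl⟩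
  obtain ⟨A3, hA3⟩ : ∃ A3, A3 = (nn κ : ℝ) ^ 2 * (C₁ * (C₀ * KK κ D) ^ 2 *
    (Real.exp (2 * κ * Λ) * (2 * Real.exp (4 * Λ) *
        (24 * (4 / κ) ^ 4 * Real.exp (κ / 4 + κ * Λ))))) := ⟨_, rfl⟩
  have hA1' : 0 ≤ A1 := by rw [hA1]; positivity
  have hA2' : 0 ≤ A2 := by rw [hA2]; positivity
  have hA3' : 0 ≤ A3 := by rw [hA3]; positivity
  refine ⟨6 * (2 * A1 + 2 * A2 + A3 + 9), κ / 2, by positivity, by positivity,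
    fun p hpF hp => ?_⟩
  obtain ⟨ν₁, h1⟩ := h1 p hp
  obtain ⟨ν₂, h2⟩ := h2 p hp
  refine ⟨max (max ν₁ ν₂) (max ⌈q₀⌉₊ ⌈2 * Λ⌉₊), fun ν m hmν hν hm χ hχ s hs => ?_⟩
  have hν1 : ν₁ ≤ ν := (le_max_left _ _).trans ((le_max_left _ _).trans hν)
  have hν2 : ν₂ ≤ ν := (le_max_right _ _).trans ((le_max_left _ _).trans hν)
  have hν3 : ⌈q₀⌉₊ ≤ ν := (le_max_left _ _).trans ((le_max_right _ _).trans hν)
  have hν4 : ⌈2 * Λ⌉₊ ≤ ν := (le_max_right _ _).trans ((le_max_right _ _).trans hν)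
  have h1 := h1 ν m hmν hν1 hm χ hχ
  have h2 := h2 ν m hmν hν2 hm χ hχ
  have hν0 : ν ≠ 0 := by omega
  have hp1 : 1 < p := by omega
  have hq : 1 < p ^ ν := Nat.one_lt_pow hν0 hp1
  have hcast : ((p ^ ν : ℕ) : ℝ) = (p : ℝ) ^ ν := by push_cast; rfl
  have hp0 : (0 : ℝ) < p := by exact_mod_cast (by omega : 0 < p)
  have hqpos : (0 : ℝ) < (p : ℝ) ^ ν := by positivity
  have hlog : Real.log ((p : ℝ) ^ ν) = ν * Real.log p := Real.log_pow _ _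
  have hlogp : 1 ≤ Real.log p := by
    rw [Real.le_log_iff_exp_le hp0]
    have : (7 : ℝ) ≤ p := by exact_mod_cast hp
    linarith [Real.exp_one_lt_d9]
  obtain ⟨L, hLdef⟩ : ∃ L, L = (ν : ℝ) * Real.log p := ⟨_, rfl⟩
  have hLν : (ν : ℝ) ≤ L := by
    rw [hLdef]
    exact le_mul_of_one_le_right (Nat.cast_nonneg _) hlogp
  have hνpos : (0 : ℝ) < ν := by exact_mod_cast Nat.pos_of_ne_zero hν0
  have hLpos : 0 < L := hνpos.trans_le hLν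
  have hL2 : 2 * Λ ≤ L := (Nat.ceil_le.1 hν4).trans hLν
  have hqν : q₀ ≤ ((p ^ ν : ℕ) : ℝ) := by
    refine (Nat.ceil_le.1 hν3).trans ?_
    exact_mod_cast (Nat.lt_pow_self hp1).le
  obtain ⟨s1, s2, s3⟩ := hs
  obtain ⟨α, hα⟩ : ∃ α, α = s.re - 1 / 2 := ⟨_, rfl⟩
  obtain ⟨X, hXdef⟩ : ∃ X, X = α * L := ⟨_, rfl⟩
  have s1' : -(Λ / L) ≤ α := by
    rw [hlog, ← hLdef] at s1
    linarith
  have hX : -Λ ≤ X := by
    have := mul_le_mul_of_nonneg_right s1' hLpos.le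
    rw [neg_mul, div_mul_cancel₀ _ hLpos.ne'] at this
    rw [hXdef]
    exact this
  have hXL : X ≤ L / 4 := by
    rw [hXdef]
    nlinarith
  have hsre : 0 ≤ s.re := by
    have : Λ / L ≤ 1 / 2 := by
      rw [div_le_iff₀ hLpos]
      linarith
    linarith
  have hP : (0 : ℝ) ≤ (p : ℝ) ^ m := by positivity
  have ok1 : Ok κ X L η₁ C₁ ((p : ℝ) ^ m) Λ D :=
    ⟨hκ, hκ100, hX, hXL, hLpos.le, by linarith, hC₁.le, hP, hΛ.le, hD, d1, d2⟩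
  have ok2 : Ok κ X L η₂ C₂ ((p : ℝ) ^ m) Λ D :=
    ⟨hκ, hκ100, hX, hXL, hLpos.le, by linarith, hC₂.le, hP, hΛ.le, hD, d1, d2⟩
  have hcv : ∀ y : ℝ, ((p : ℝ) ^ ν) ^ y = Real.exp (L * y) := by
    intro y
    rw [Real.rpow_def_of_pos hqpos, hlog, ← hLdef]
  let ψ : DirichletCharacter ℂ (p ^ m) → DirichletCharacter ℂ (p ^ ν) := fun θ =>
    χ * DirichletCharacter.changeLevel (pow_dvd_pow p hmν.le) θ
  let M : DirichletCharacter ℂ (p ^ m) → ℂ := fun θ => MP (ψ θ) κ s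
  have hHM : HM ψ M s κ X L η₁ C₁ ((p : ℝ) ^ m) := by
    intro B G hG a ha hsup
    have h3 := h1 B G hG a ha hsup s ⟨s1, s2, s3⟩
    rw [hcv, hcv] at h3
    have e1 : L * (-2 * (s.re - 1 / 2) * max a 0) = -(2 * X * max a 0) := by
      rw [hXdef, hα]
      ring
    have e2 : L * -η₁ = -η₁ * L := by ring
    rw [e1, e2] at h3
    exact h3
  have hHZ : HZ ψ M s κ X L η₂ C₂ ((p : ℝ) ^ m) := by
    intro B G hG hsup e₀ he₀ hG1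
    have h3 := h2 B G hG hsup e₀ he₀ hG1 s ⟨s1, s2, s3⟩
    rw [hcv, hcv, ← hLdef] at h3
    have e1 : L * (-(κ / 2) * (s.re - 1 / 2)) = -(κ / 2) * X := by
      rw [hXdef, hα]
      ring
    have e2 : L * -η₂ = -η₂ * L := by ring
    rw [e1, e2] at h3
    exact h3
  have hcard : (Fintype.card (DirichletCharacter ℂ (p ^ m)) : ℝ) ≤ (p : ℝ) ^ m := by
    have e1 := DirichletCharacter.card_eq_totient_of_hasEnoughRootsOfUnity ℂ (p ^ m)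
    rw [← Nat.card_eq_fintype_card, e1]
    calc ((p ^ m).totient : ℝ) ≤ ((p ^ m : ℕ) : ℝ) := by exact_mod_cast Nat.totient_le _
      _ = _ := by push_cast; rfl
  obtain ⟨E, hE⟩ : ∃ E, E = Real.exp (-(κ / 2) * X) := ⟨_, rfl⟩
  have herr : ∑ θ, (‖M θ‖ / ((p ^ ν : ℕ) : ℝ)) ^ 2 ≤ 9 * E * (p : ℝ) ^ m := by
    have e1 : ∀ θ ∈ (univ : Finset (DirichletCharacter ℂ (p ^ m))),
        (‖M θ‖ / ((p ^ ν : ℕ) : ℝ)) ^ 2 ≤ 9 * E := by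
      intro θ _
      refine (errM hq (ψ θ) hκ hκ100 hsre).trans ?_
      rw [hcast, hlog, ← hLdef, hE]
      have := ex2 (X := X) (L := L) (κ := κ) (η := 1) hXL hLpos.le hκ.le (by linarith)
      linarith
    refine (sum_le_sum e1).trans ?_
    rw [sum_const, card_univ, nsmul_eq_mul]
    have : 0 ≤ 9 * E := by rw [hE]; positivity
    nlinarith [mul_le_mul_of_nonneg_right hcard this]
  -- the bound for one parity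
  have hpar : ∀ G1 G2 : ℝ → ℂ, WG C₀ G1 → WG C₀ G2 →
      (∀ v, 1 / 2 + 3 * (κ / 3) ≤ v → G1 v = 0 ∧ G2 v = 0) →
      (∀ v, v ≤ 1 / 4 → ‖G1 v - 1‖ ≤ C₀ * ((p ^ ν : ℕ) : ℝ) ^ (-(1 / 10) : ℝ)) →
      ∑ θ, (‖AS (ψ θ) G1 s * M θ - 1‖ ^ 2 +
        ‖AS (ψ θ) (fun v => (Real.exp ((s.re - 1 / 2) * Real.log ((p ^ ν : ℕ) : ℝ) *
          (2 * v - 1)) : ℂ) * G2 v) s * M θ‖ ^ 2 + (‖M θ‖ / ((p ^ ν : ℕ) : ℝ)) ^ 2) ≤
      (2 * A1 + 2 * A2 + A3 + 9) * E * (p : ℝ) ^ m := by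
    intro G1 G2 w1 w2 hv hG1
    have e1 : (s.re - 1 / 2) * Real.log ((p ^ ν : ℕ) : ℝ) = X := by
      rw [hcast, hlog, ← hLdef, hXdef, hα]
    have hv1 : ∀ v, 1 / 2 + κ ≤ v → G1 v = 0 := fun v h => (hv v (by linarith)).1
    have hv2 : ∀ v, 1 / 2 + κ ≤ v → G2 v = 0 := fun v h => (hv v (by linarith)).2
    have e2 : ∀ v, v ≤ 1 / 4 → ‖G1 v - 1‖ ≤ C₀ * Real.exp (-(1 / 10) * L) := by
      intro v h
      have := hG1 v h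
      rw [hcast, hcv] at this
      have e3 : L * (-(1 / 10)) = -(1 / 10) * L := by ring
      rw [e3] at this
      exact this
    have g1 := first hHM hHZ ok1 ok2 w1 hv1 e2
    have g2 := secondR hHM ok1 w2 hv2
    rw [e1, sum_add_distrib, sum_add_distrib]
    rw [← hE] at g1 g2
    have g3 : 2 * (C₂ * ((C₀ * KK κ D + C₀ * KK κ D) ^ 2 * 2 +
        C₀ ^ 2 * (240000 * Real.exp (1 / 10))) * E * (p : ℝ) ^ m) +
        2 * (((⌊2 / κ⌋₊ + 4 : ℕ) : ℝ) ^ 2 *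
        (C₁ * (C₀ * KK κ D) ^ 2 * (Real.exp (2 * Λ) + 1) * E * (p : ℝ) ^ m)) =
        (2 * A1 + 2 * A2) * E * (p : ℝ) ^ m := by
      rw [hA1, hA2]
      ring
    have g4 : (nn κ : ℝ) ^ 2 * (C₁ * (C₀ * KK κ D) ^ 2 * (Real.exp (2 * κ * Λ) *
        (2 * Real.exp (4 * Λ) * (24 * (4 / κ) ^ 4 * Real.exp (κ / 4 + κ * Λ)))) * E *
        (p : ℝ) ^ m) = A3 * E * (p : ℝ) ^ m := by
      rw [hA3]
      ring
    rw [g3] at g1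
    rw [g4] at g2
    have g5 : (2 * A1 + 2 * A2 + A3 + 9) * E * (p : ℝ) ^ m = (2 * A1 + 2 * A2) * E * (p : ℝ) ^ m +
      A3 * E * (p : ℝ) ^ m + 9 * E * (p : ℝ) ^ m := by ring
    rw [g5]
    linarith
  have hreg : Reg ((p ^ ν : ℕ) : ℝ) T Λ s := by
    rw [hcast]
    exact ⟨s1, s2, s3⟩
  obtain ⟨G1, G2, a1, a2, a3, a4, a5⟩ := h0 (p ^ ν) hqν 0 (by norm_num) s hreg
  obtain ⟨G1', G2', b1, b2, b3, b4, b5⟩ := h0 (p ^ ν) hqν 1 le_rfl s hreg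
  have f0 := hpar G1 G2 a1 a2 a3 a4
  have f1 := hpar G1' G2' b1 b2 b3 b4
  obtain ⟨F0, hF0⟩ : ∃ F0 : DirichletCharacter ℂ (p ^ m) → ℝ, F0 = fun θ =>
    (‖AS (ψ θ) G1 s * M θ - 1‖ ^ 2 +
        ‖AS (ψ θ) (fun v => (Real.exp ((s.re - 1 / 2) * Real.log ((p ^ ν : ℕ) : ℝ) *
          (2 * v - 1)) : ℂ) * G2 v) s * M θ‖ ^ 2 + (‖M θ‖ / ((p ^ ν : ℕ) : ℝ)) ^ 2) := ⟨_, rfl⟩
  obtain ⟨F1, hF1⟩ : ∃ F1 : DirichletCharacter ℂ (p ^ m) → ℝ, F1 = fun θ =>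
    (‖AS (ψ θ) G1' s * M θ - 1‖ ^ 2 +
        ‖AS (ψ θ) (fun v => (Real.exp ((s.re - 1 / 2) * Real.log ((p ^ ν : ℕ) : ℝ) *
          (2 * v - 1)) : ℂ) * G2' v) s * M θ‖ ^ 2 + (‖M θ‖ / ((p ^ ν : ℕ) : ℝ)) ^ 2) := ⟨_, rfl⟩
  have f0' : ∑ θ, F0 θ ≤ (2 * A1 + 2 * A2 + A3 + 9) * E * (p : ℝ) ^ m := by
    rw [hF0]
    exact f0
  have f1' : ∑ θ, F1 θ ≤ (2 * A1 + 2 * A2 + A3 + 9) * E * (p : ℝ) ^ m := by
    rw [hF1]
    exact f1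
  have hpt : ∀ θ, ‖(ψ θ).LFunction s * M θ - 1‖ ^ 2 ≤ 3 * (F0 θ + F1 θ) := by
    intro θ
    have hprim : (ψ θ).IsPrimitive := Pool.Agent.Y766.R3.prim_mul hpF.out hmν hχ θ
    have n0 : 0 ≤ F0 θ := by
      rw [hF0]
      positivity
    have n1 : 0 ≤ F1 θ := by
      rw [hF1]
      positivity
    rcases (ψ θ).even_or_odd with hev | hod
    · obtain ⟨w, hw, hL⟩ := a5 (ψ θ) hprim (by rw [pow_zero]; exact hev)
      have := pw hq (ψ θ) G1 G2 s w ((ψ θ).LFunction s) (M θ) hw hL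
      have e : F0 θ = (‖AS (ψ θ) G1 s * M θ - 1‖ ^ 2 +
        ‖AS (ψ θ) (fun v => (Real.exp ((s.re - 1 / 2) * Real.log ((p ^ ν : ℕ) : ℝ) *
          (2 * v - 1)) : ℂ) * G2 v) s * M θ‖ ^ 2 + (‖M θ‖ / ((p ^ ν : ℕ) : ℝ)) ^ 2) := by
        rw [hF0]
      rw [← e] at this
      linarith
    · obtain ⟨w, hw, hL⟩ := b5 (ψ θ) hprim (by rw [pow_one]; exact hod)
      have := pw hq (ψ θ) G1' G2' s w ((ψ θ).LFunction s) (M θ) hw hL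
      have e : F1 θ = (‖AS (ψ θ) G1' s * M θ - 1‖ ^ 2 +
        ‖AS (ψ θ) (fun v => (Real.exp ((s.re - 1 / 2) * Real.log ((p ^ ν : ℕ) : ℝ) *
          (2 * v - 1)) : ℂ) * G2' v) s * M θ‖ ^ 2 + (‖M θ‖ / ((p ^ ν : ℕ) : ℝ)) ^ 2) := by
        rw [hF1]
      rw [← e] at this
      linarith
  have hfin : ∑ θ, ‖(ψ θ).LFunction s * M θ - 1‖ ^ 2 ≤
      6 * (2 * A1 + 2 * A2 + A3 + 9) * E * (p : ℝ) ^ m := by
    refine (sum_le_sum fun θ _ => hpt θ).trans ?_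
    rw [← mul_sum, sum_add_distrib]
    linarith
  have hE2 : Real.exp (-(κ / 2) * (s.re - 1 / 2) * (ν * Real.log p)) = E := by
    rw [hE, hXdef, hα, hLdef]
    congr 1
    ring
  rw [hE2]
  exact hfin

end Pool.Agent.Y766.R14
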