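import Pool.Agent.Y474.R11.Fm1
import Pool.Agent.Y766.R14.Stm

/-!
The mean square of `L` at `s` with the mollifier at a fixed point.
-/

set_option autoImplicit false

namespace Pool.Agent.Y766.R14

open Finset Filter
open scoped ContDiff
open Pool.Agent.Y766.R10 (WG mw)
open Pool.Agent.Y766.R11
open Pool.Agent.Y474.R11
open Pool.Agent.Y785.R10 (om om_smooth om_zero om_le om_bound om_sum piece)

/-- shifting the point -/
theorem AS_move {q : ℕ} (hq : 1 < q) (χ : DirichletCharacter ℂ q) (G : ℝ → ℂ) (s s2 β : ℂ)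
    (hβ : (s2 - s) * (Real.log q : ℂ) = β) :
    AS χ G s = AS χ (fun v => Complex.exp (β * v) * G v) s2 := by
  unfold AS
  refine sum_congr rfl fun n hn => ?_
  have hn1 : 1 ≤ n := (mem_Icc.1 hn).1
  have hn0 : (n : ℂ) ≠ 0 := by
    have : n ≠ 0 := by omega
    exact_mod_cast this
  have hL : (Real.log q : ℂ) ≠ 0 := by
    exact_mod_cast (Real.log_pos (by exact_mod_cast hq : (1 : ℝ) < q)).ne'
  have e1 : (n : ℂ) ^ (-s) = Complex.exp (β * ((Real.log n / Real.log q : ℝ) : ℂ)) *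
      (n : ℂ) ^ (-s2) := by
    have e2 : -s = (s2 - s) + (-s2) := by ring
    rw [e2, Complex.cpow_add _ _ hn0]
    congr 1
    rw [Complex.cpow_def_of_ne_zero hn0, ← hβ, ← Complex.natCast_log]
    congr 1
    rw [Complex.ofReal_div]
    field_simp
  rw [e1]
  ring

theorem WG_cexp {B lo hi M : ℝ} {β : ℂ} {P : ℝ → ℂ} (hP : WG B P)
    (hs : ∀ v, v ∉ Set.Icc lo hi → P v = 0)
    (hM : ∀ v, v ∈ Set.Icc lo hi → Real.exp (β.re * v) ≤ M) (hM0 : 0 ≤ M) :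
    WG ((1 + ‖β‖) ^ 2 * M * B) (fun v => Complex.exp (β * v) * P v) := by
  have hB : 0 ≤ B := (norm_nonneg _).trans (hP.b0 0)
  have hX : 0 ≤ ‖β‖ := norm_nonneg β
  have s1 : ContDiff ℝ ∞ (deriv P) := (contDiff_infty_iff_deriv.1 hP.smooth).2
  have d1 : ∀ v, HasDerivAt P (deriv P v) v := fun v =>
    ((contDiff_infty_iff_deriv.1 hP.smooth).1 v).hasDerivAt
  have dd1 : ∀ v, HasDerivAt (deriv P) (deriv (deriv P) v) v := fun v =>
    ((contDiff_infty_iff_deriv.1 s1).1 v).hasDerivAt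
  have dE : ∀ v : ℝ, HasDerivAt (fun v : ℝ => Complex.exp (β * v))
      (Complex.exp (β * v) * β) v := by
    intro v
    have h1 : HasDerivAt (fun z : ℂ => Complex.exp (β * z)) (Complex.exp (β * (v : ℂ)) * β) (v : ℂ) := by
      have h2 := ((hasDerivAt_id (v : ℂ)).const_mul β).cexp
      refine h2.congr_deriv ?_
      simp
    exact h1.comp_ofReal
  have e1 : deriv (fun v : ℝ => Complex.exp (β * v) * P v) = fun v : ℝ =>
      Complex.exp (β * v) * (β * P v + deriv P v) := by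
    funext v
    have h2 : HasDerivAt (fun v : ℝ => Complex.exp (β * v) * P v) _ v :=
      (dE v).mul (d1 v)
    rw [h2.deriv]
    ring
  have e2 : deriv (fun v : ℝ => Complex.exp (β * v) * (β * P v + deriv P v)) = fun v : ℝ =>
      Complex.exp (β * v) * (β ^ 2 * P v + (2 * β) * deriv P v + deriv (deriv P) v) := by
    funext v
    have h1 : HasDerivAt (fun v => β * P v + deriv P v)
        (β * deriv P v + deriv (deriv P) v) v :=
      ((d1 v).const_mul _).add (dd1 v)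
    have h2 : HasDerivAt (fun v : ℝ => Complex.exp (β * v) * (β * P v + deriv P v)) _ v :=
      (dE v).mul h1
    rw [h2.deriv]
    ring
  have hz1 := deriv_out hs
  have hz2 := deriv_out hz1
  have hn : ∀ v : ℝ, ‖Complex.exp (β * v)‖ = Real.exp (β.re * v) := by
    intro v
    rw [Complex.norm_exp]
    congr 1
    simp
  have n2 : ‖2 * β‖ = 2 * ‖β‖ := by
    rw [norm_mul]
    norm_num
  have hB0 : 0 ≤ (1 + ‖β‖) ^ 2 * M * B := by positivity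
  have key : ∀ (v : ℝ) (z : ℂ), z = 0 ∨ (v ∈ Set.Icc lo hi ∧ ‖z‖ ≤ (1 + ‖β‖) ^ 2 * B) →
      ‖Complex.exp (β * v) * z‖ ≤ (1 + ‖β‖) ^ 2 * M * B := by
    rintro v z (rfl | ⟨hv, hz⟩)
    · rw [mul_zero, norm_zero]
      exact hB0
    · rw [norm_mul, hn]
      calc _ ≤ M * ((1 + ‖β‖) ^ 2 * B) := mul_le_mul (hM v hv) hz (norm_nonneg _) hM0
        _ = _ := by ring
  refine ⟨?_, fun v => ?_, fun v => ?_, fun v => ?_⟩
  · refine ContDiff.mul ?_ hP.smooth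
    exact (contDiff_const.mul Complex.ofRealCLM.contDiff).cexp
  · refine key v _ ?_
    by_cases hv : v ∈ Set.Icc lo hi
    · refine Or.inr ⟨hv, (hP.b0 v).trans ?_⟩
      nlinarith [mul_nonneg hX hB, mul_nonneg (mul_nonneg hX hX) hB]
    · exact Or.inl (hs v hv)
  · rw [e1]
    refine key v _ ?_
    by_cases hv : v ∈ Set.Icc lo hi
    · refine Or.inr ⟨hv, (norm_add_le _ _).trans ?_⟩
      rw [norm_mul]
      have a1 := mul_le_mul_of_nonneg_left (hP.b0 v) hX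
      have a2 := hP.b1 v
      nlinarith [mul_nonneg hX hB, mul_nonneg (mul_nonneg hX hX) hB]
    · refine Or.inl ?_
      rw [hs v hv, hz1 v hv, mul_zero, add_zero]
  · rw [e1, e2]
    refine key v _ ?_
    by_cases hv : v ∈ Set.Icc lo hi
    · refine Or.inr ⟨hv, (norm_add_le _ _).trans ((add_le_add_left (norm_add_le _ _) _).trans ?_)⟩
      rw [norm_mul, norm_mul, n2, norm_pow]
      have a1 := mul_le_mul_of_nonneg_left (hP.b0 v) (by positivity : 0 ≤ ‖β‖ ^ 2)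
      have a2 := mul_le_mul_of_nonneg_left (hP.b1 v) (by positivity : 0 ≤ 2 * ‖β‖)
      have a3 := hP.b2 v
      nlinarith [mul_nonneg hX hB, mul_nonneg (mul_nonneg hX hX) hB]
    · refine Or.inl ?_
      rw [hs v hv, hz1 v hv, hz2 v hv, mul_zero, mul_zero, add_zero, add_zero]

/-- the mean square of a shifted sum -/
theorem shiftR {q : ℕ} {Θ : Type*} [Fintype Θ] {ψ : Θ → DirichletCharacter ℂ q} {M : Θ → ℂ}
    {s : ℂ} {κ X L η C P D B b : ℝ} {G : ℝ → ℂ} {β : ℂ}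
    (h : HM ψ M s κ X L η C P) (hκ : 0 < κ) (hC : 0 ≤ C) (hP : 0 ≤ P) (hD : 0 < D)
    (d1 : ∀ x, ‖deriv om x‖ ≤ D) (d2 : ∀ x, ‖deriv (deriv om) x‖ ≤ D) (hG : WG B G)
    (hG0 : ∀ v, 1 / 2 + κ ≤ v → G v = 0)
    (hb : ∀ a, -(κ / 4) ≤ a → a ≤ 1 / 2 + κ →
      Real.exp (2 * (β.re * a + |β.re| * (κ / 2))) *
        (Real.exp (-(2 * X * max a 0)) + Real.exp (-η * L)) ≤ b) :
    ∑ θ, ‖AS (ψ θ) (fun v => Complex.exp (β * v) * G v) s * M θ‖ ^ 2 ≤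
      (nn κ : ℝ) ^ 2 * (C * (B * KK κ D) ^ 2 * (1 + ‖β‖) ^ 4 * b * P) := by
  refine split ψ M s _ (nn κ) (fun i v => Complex.exp (β * v) * pc κ G i v)
    (fun v hv => ?_) _ fun i hi => ?_
  · rw [← mul_sum, ← pc_sum hκ G hG0 v hv]
  obtain ⟨a, ha⟩ : ∃ a : ℝ, a = ((i : ℝ) - 1) * κ / 4 := ⟨_, rfl⟩
  have ha1 : a ≤ 1 / 2 + κ := ha ▸ pc_a hκ hi
  have ha2 : -(κ / 4) ≤ a := by
    rw [ha]
    have : (0 : ℝ) ≤ i := Nat.cast_nonneg i
    nlinarith [mul_nonneg this hκ.le]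
  have hsup : ∀ v, v ∉ Set.Icc a (a + κ / 2) → pc κ G i v = 0 := by
    intro v hv
    rw [ha] at hv
    exact pc_supp hκ G i v hv
  have hM : ∀ v, v ∈ Set.Icc a (a + κ / 2) →
      Real.exp (β.re * v) ≤ Real.exp (β.re * a + |β.re| * (κ / 2)) := by
    intro v hv
    apply Real.exp_le_exp.2
    obtain ⟨hv1, hv2⟩ := hv
    have e1 : β.re * (v - a) ≤ |β.re| * (κ / 2) := by
      calc β.re * (v - a) ≤ |β.re| * (v - a) :=
            mul_le_mul_of_nonneg_right (le_abs_self _) (by linarith)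
        _ ≤ _ := mul_le_mul_of_nonneg_left (by linarith) (abs_nonneg _)
    linarith
  have hW := WG_cexp (β := β) (pc_WG hκ hD d1 d2 hG i) hsup hM (Real.exp_pos _).le
  have h1 := h _ _ hW a ha1 (by
    intro v hv
    rw [hsup v fun hv' => hv ⟨hv'.1, hv'.2.trans (by linarith)⟩, mul_zero])
  refine h1.trans ?_
  have h4 : Real.exp (β.re * a + |β.re| * (κ / 2)) ^ 2 =
      Real.exp (2 * (β.re * a + |β.re| * (κ / 2))) := by
    rw [← Real.exp_nat_mul]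
    push_cast
    rfl
  have h5 : C * ((1 + ‖β‖) ^ 2 * Real.exp (β.re * a + |β.re| * (κ / 2)) * (B * KK κ D)) ^ 2 *
      (Real.exp (-(2 * X * max a 0)) + Real.exp (-η * L)) * P =
      C * (B * KK κ D) ^ 2 * (1 + ‖β‖) ^ 4 * (Real.exp (2 * (β.re * a + |β.re| * (κ / 2))) *
        (Real.exp (-(2 * X * max a 0)) + Real.exp (-η * L))) * P := by
    rw [mul_pow, mul_pow, h4]
    ring
  rw [h5]
  have h6 := hb a ha2 ha1
  gcongr

/-- one character -/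
theorem pw2 {q : ℕ} (hq : 1 < q) (χ : DirichletCharacter ℂ q) (G1 G2 : ℝ → ℂ)
    (s s2 w Lv M β β' : ℂ) (hw : ‖w‖ = 1) (hβ : (s2 - s) * (Real.log q : ℂ) = β)
    (hβ' : (s2 - (1 - (starRingEnd ℂ) s)) * (Real.log q : ℂ) = β')
    (h : ‖Lv - (AS χ G1 s + w * (q : ℂ) ^ (1 / 2 - s) *
      (starRingEnd ℂ) (AS χ G2 (1 - (starRingEnd ℂ) s)))‖ ≤ 1 / q) :
    ‖Lv * M‖ ^ 2 ≤ 3 * (‖AS χ (fun v => Complex.exp (β * v) * G1 v) s2 * M‖ ^ 2 +
      Real.exp (-(2 * ((s.re - 1 / 2) * Real.log q))) *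
      ‖AS χ (fun v => Complex.exp (β' * v) * G2 v) s2 * M‖ ^ 2 + (‖M‖ / q) ^ 2) := by
  have e1 : Lv * M = AS χ G1 s * M + w * (q : ℂ) ^ (1 / 2 - s) *
      (starRingEnd ℂ) (AS χ G2 (1 - (starRingEnd ℂ) s)) * M +
      (Lv - (AS χ G1 s + w * (q : ℂ) ^ (1 / 2 - s) *
      (starRingEnd ℂ) (AS χ G2 (1 - (starRingEnd ℂ) s)))) * M := by ring
  have e2 : ‖w * (q : ℂ) ^ (1 / 2 - s) *
      (starRingEnd ℂ) (AS χ G2 (1 - (starRingEnd ℂ) s)) * M‖ =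
      Real.exp (-((s.re - 1 / 2) * Real.log q)) *
      ‖AS χ (fun v => Complex.exp (β' * v) * G2 v) s2 * M‖ := by
    rw [← AS_move hq χ G2 (1 - (starRingEnd ℂ) s) s2 β' hβ', norm_mul, norm_mul, norm_mul,
      norm_mul, hw, norm_q hq, one_mul, RCLike.norm_conj]
    ring
  have e3 : ‖(Lv - (AS χ G1 s + w * (q : ℂ) ^ (1 / 2 - s) *
      (starRingEnd ℂ) (AS χ G2 (1 - (starRingEnd ℂ) s)))) * M‖ ≤ ‖M‖ / q := by
    rw [norm_mul]
    calc _ ≤ 1 / (q : ℝ) * ‖M‖ := mul_le_mul_of_nonneg_right h (norm_nonneg _)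
      _ = _ := by ring
  have e4 : ‖Lv * M‖ ≤ ‖AS χ (fun v => Complex.exp (β * v) * G1 v) s2 * M‖ +
      Real.exp (-((s.re - 1 / 2) * Real.log q)) *
      ‖AS χ (fun v => Complex.exp (β' * v) * G2 v) s2 * M‖ + ‖M‖ / q := by
    rw [e1, ← AS_move hq χ G1 s s2 β hβ]
    refine (norm_add_le _ _).trans (add_le_add ((norm_add_le _ _).trans ?_) e3)
    rw [e2]
  have e5 := pow_le_pow_left₀ (norm_nonneg _) e4 2
  refine e5.trans ?_
  have e6 : Real.exp (-(2 * ((s.re - 1 / 2) * Real.log q))) =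
      Real.exp (-((s.re - 1 / 2) * Real.log q)) ^ 2 := by
    rw [← Real.exp_nat_mul]
    congr 1
    push_cast
    ring
  rw [e6, ← mul_pow]
  obtain ⟨x, hx⟩ : ∃ x, x = ‖AS χ (fun v => Complex.exp (β * v) * G1 v) s2 * M‖ := ⟨_, rfl⟩
  obtain ⟨y, hy⟩ : ∃ y, y = Real.exp (-((s.re - 1 / 2) * Real.log q)) *
      ‖AS χ (fun v => Complex.exp (β' * v) * G2 v) s2 * M‖ := ⟨_, rfl⟩
  rw [← hx, ← hy]
  nlinarith [sq_nonneg (x - y), sq_nonneg (x - ‖M‖ / q), sq_nonneg (y - ‖M‖ / q)]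

/-- the exponents, first sum -/
theorem ey1 {R X κ η L a : ℝ} (hR : 1 ≤ R) (hX : 0 ≤ X) (hXR : X ≤ R) (hκ : 0 < κ)
    (hκ1 : κ ≤ 1 / 100) (hηL : 3 * R ≤ η * L) (ha : -(κ / 4) ≤ a) (ha' : a ≤ 1 / 2 + κ) :
    Real.exp (2 * ((R / 2 - X) * a + |R / 2 - X| * (κ / 2))) *
        (Real.exp (-(2 * (R / 2) * max a 0)) + Real.exp (-η * L)) ≤
      2 * Real.exp (2 * κ * R) := by
  have hb : |R / 2 - X| ≤ R / 2 := by rw [abs_le]; constructor <;> linarith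
  have hb2 := mul_le_mul_of_nonneg_right hb (by positivity : 0 ≤ κ / 2)
  have hab : |(R / 2 - X) * a| ≤ R / 2 * |a| := by
    rw [abs_mul]; exact mul_le_mul_of_nonneg_right hb (abs_nonneg _)
  have h1 : 2 * ((R / 2 - X) * a + |R / 2 - X| * (κ / 2)) + -(2 * (R / 2) * max a 0) ≤
      2 * κ * R := by
    rcases le_total 0 a with h | h
    · rw [max_eq_left h]
      nlinarith [mul_nonneg hX h, mul_nonneg hκ.le (by linarith : 0 ≤ R)]
    · rw [max_eq_right h]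
      have h3 := (le_abs_self ((R / 2 - X) * a)).trans hab
      rw [abs_of_nonpos h] at h3
      nlinarith [mul_nonneg hκ.le (by linarith : 0 ≤ R)]
  have h2 : 2 * ((R / 2 - X) * a + |R / 2 - X| * (κ / 2)) + -η * L ≤ 2 * κ * R := by
    have h3 := (le_abs_self ((R / 2 - X) * a)).trans hab
    have h4 : |a| ≤ 1 := by rw [abs_le]; constructor <;> linarith
    nlinarith [mul_nonneg hκ.le (by linarith : 0 ≤ R),
      mul_nonneg (by linarith : 0 ≤ R) (sub_nonneg.2 h4)]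
  rw [mul_add, ← Real.exp_add, ← Real.exp_add]
  have h3 := Real.exp_le_exp.2 h1
  have h4 := Real.exp_le_exp.2 h2
  linarith

/-- the exponents, dual sum -/
theorem ey2 {R X κ η L a : ℝ} (hR : 1 ≤ R) (hX : 0 ≤ X) (hXR : X ≤ R) (hκ : 0 < κ)
    (hκ1 : κ ≤ 1 / 100) (hηL : 3 * R ≤ η * L) (ha : -(κ / 4) ≤ a) (ha' : a ≤ 1 / 2 + κ) :
    Real.exp (2 * ((R / 2 + X) * a + |R / 2 + X| * (κ / 2))) *
        (Real.exp (-(2 * (R / 2) * max a 0)) + Real.exp (-η * L)) ≤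
      Real.exp (2 * X) * (2 * Real.exp (2 * κ * R)) := by
  have hb : |R / 2 + X| = R / 2 + X := abs_of_nonneg (by linarith)
  rw [hb]
  have hRκ := mul_nonneg hκ.le (by linarith : 0 ≤ R)
  have hXκ := mul_le_mul_of_nonneg_left hXR hκ.le
  have h1 : 2 * ((R / 2 + X) * a + (R / 2 + X) * (κ / 2)) + -(2 * (R / 2) * max a 0) ≤
      2 * X + 2 * κ * R := by
    rcases le_total 0 a with h | h
    · rw [max_eq_left h]
      nlinarith [mul_nonneg hX (sub_nonneg.2 ha')]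
    · rw [max_eq_right h]
      nlinarith [mul_nonneg (by linarith : 0 ≤ R / 2 + X) (by linarith : 0 ≤ -a)]
  have h2 : 2 * ((R / 2 + X) * a + (R / 2 + X) * (κ / 2)) + -η * L ≤ 2 * X + 2 * κ * R := by
    nlinarith [mul_nonneg (by linarith : 0 ≤ R / 2 + X) (sub_nonneg.2 ha')]
  rw [mul_add, ← Real.exp_add, ← Real.exp_add]
  have h3 := Real.exp_le_exp.2 h1
  have h4 := Real.exp_le_exp.2 h2
  rw [Real.exp_add (2 * X)] at h3 h4
  linarith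

/-- **MSS** -/
theorem mss (h0 : Pool.Agent.Y766.R11.S_AFS) (h1 : Pool.Agent.Y766.R11.S_MSR) : S_MSS := by
  obtain ⟨D, hD, d1, d2⟩ := om_bound
  intro δ hδ
  obtain ⟨κ₁, η₁, k0, k1, k2, k3, h1⟩ := h1 δ hδ
  refine ⟨κ₁, k0, k1, ?_⟩
  intro κ hκ hκ1 T
  have hκ100 : κ ≤ 1 / 100 := hκ1.trans k1
  obtain ⟨T', hT'⟩ : ∃ T', T' = T + 1 := ⟨_, rfl⟩
  obtain ⟨C₁, hC₁, h1⟩ := h1 κ hκ hκ1 T' 1 one_pos
  obtain ⟨C₀, q₀, hC₀, h0⟩ := h0 T' 1 (κ / 3) one_pos (by positivity) (by linarith)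
  obtain ⟨A, hA⟩ : ∃ A, A = (nn κ : ℝ) ^ 2 * (C₁ * (C₀ * KK κ D) ^ 2 * 16 * 2) := ⟨_, rfl⟩
  have hA' : 0 ≤ A := by rw [hA]; positivity
  refine ⟨6 * (2 * A + 9), by positivity, fun R hR p hpF hp => ?_⟩
  obtain ⟨ν₁, h1⟩ := h1 p hp
  refine ⟨max (max ν₁ ⌈3 * R / η₁⌉₊) (max ⌈q₀⌉₊ ⌈4 * R⌉₊),
    fun ν m hmν hν hm χ hχ t ht z hz hzR => ?_⟩
  have hν1 : ν₁ ≤ ν := (le_max_left _ _).trans ((le_max_left _ _).trans hν)
  have hν2 : ⌈3 * R / η₁⌉₊ ≤ ν := (le_max_right _ _).trans ((le_max_left _ _).trans hν)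
  have hν3 : ⌈q₀⌉₊ ≤ ν := (le_max_left _ _).trans ((le_max_right _ _).trans hν)
  have hν4 : ⌈4 * R⌉₊ ≤ ν := (le_max_right _ _).trans ((le_max_right _ _).trans hν)
  have h1 := h1 ν m hmν hν1 hm χ hχ
  have hν0 : ν ≠ 0 := by omega
  have hp1 : 1 < p := by omega
  have hq : 1 < p ^ ν := Nat.one_lt_pow hν0 hp1
  have hcast : ((p ^ ν : ℕ) : ℝ) = (p : ℝ) ^ ν := by push_cast; rfl
  have hp0 : (0 : ℝ) < p := by exact_mod_cast (by omega : 0 < p)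
  have hqpos : (0 : ℝ) < (p : ℝ) ^ ν := by positivity
  have hlog : Real.log ((p : ℝ) ^ ν) = ν * Real.log p := Real.log_pow _ _
  have hlogp : 1 ≤ Real.log p := by
    rw [Real.le_log_iff_exp_le hp0]
    have : (7 : ℝ) ≤ p := by exact_mod_cast hp
    linarith [Real.exp_one_lt_d9]
  obtain ⟨L, hLdef⟩ : ∃ L, L = (ν : ℝ) * Real.log p := ⟨_, rfl⟩
  have hLν : (ν : ℝ) ≤ L := by
    rw [hLdef]
    exact le_mul_of_one_le_right (Nat.cast_nonneg _) hlogp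
  have hνpos : (0 : ℝ) < ν := by exact_mod_cast Nat.pos_of_ne_zero hν0
  have hLpos : 0 < L := hνpos.trans_le hLν
  have hL4 : 4 * R ≤ L := (Nat.ceil_le.1 hν4).trans hLν
  have hL3 : 3 * R ≤ η₁ * L := by
    have := (Nat.ceil_le.1 hν2).trans hLν
    rw [div_le_iff₀ (by linarith)] at this
    linarith
  have hqν : q₀ ≤ ((p ^ ν : ℕ) : ℝ) := by
    refine (Nat.ceil_le.1 hν3).trans ?_
    exact_mod_cast (Nat.lt_pow_self hp1).le
  rw [← hLdef]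
  have hLc : (L : ℂ) ≠ 0 := by exact_mod_cast hLpos.ne'
  obtain ⟨X, hX⟩ : ∃ X, X = z.re := ⟨_, rfl⟩
  have hX0 : 0 ≤ X := by rw [hX]; exact hz
  have hXR : X ≤ R := by rw [hX]; exact (Complex.re_le_norm z).trans hzR
  have hzi : |z.im| ≤ R := (Complex.abs_im_le_norm z).trans hzR
  obtain ⟨s, hs⟩ : ∃ s : ℂ, s = 1 / 2 + (t : ℂ) * Complex.I + z / (L : ℂ) := ⟨_, rfl⟩
  obtain ⟨s2, hs2⟩ : ∃ s2 : ℂ, s2 = 1 / 2 + (t : ℂ) * Complex.I + ((R / 2 / L : ℝ) : ℂ) := ⟨_, rfl⟩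
  rw [← hs, ← hs2]
  have hsre : s.re = 1 / 2 + X / L := by
    rw [hs, hX]
    simp [Complex.div_ofReal_re]
  have hsim : s.im = t + z.im / L := by
    rw [hs]
    simp [Complex.div_ofReal_im]
  have hs2re : s2.re = 1 / 2 + R / 2 / L := by
    rw [hs2]
    simp
  have hs2im : s2.im = t := by
    rw [hs2]
    simp
  have hXL : X / L ≤ 1 / 4 := by
    rw [div_le_iff₀ hLpos]
    linarith
  have hXL0 : 0 ≤ X / L := by positivity
  have hRL : R / 2 / L ≤ 1 / 4 := by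
    rw [div_le_iff₀ hLpos]
    linarith
  have hRL0 : 0 ≤ R / 2 / L := by positivity
  have hreg : Reg ((p : ℝ) ^ ν) T' 1 s := by
    refine ⟨?_, ?_, ?_⟩
    · rw [hlog, ← hLdef, hsre]
      have : 0 ≤ 1 / L := by positivity
      linarith
    · rw [hsre]; linarith
    · rw [hsim, hT']
      refine (abs_add_le _ _).trans (add_le_add ht ?_)
      rw [abs_div, abs_of_pos hLpos, div_le_one hLpos]
      linarith
  have hreg2 : Reg ((p : ℝ) ^ ν) T' 1 s2 := by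
    refine ⟨?_, ?_, ?_⟩
    · rw [hlog, ← hLdef, hs2re]
      have : 0 ≤ 1 / L := by positivity
      linarith
    · rw [hs2re]; linarith
    · rw [hs2im, hT']; linarith
  have hP : (0 : ℝ) ≤ (p : ℝ) ^ m := by positivity
  have hcv : ∀ y : ℝ, ((p : ℝ) ^ ν) ^ y = Real.exp (L * y) := by
    intro y
    rw [Real.rpow_def_of_pos hqpos, hlog, ← hLdef]
  obtain ⟨ψ, hψ⟩ : ∃ ψ : DirichletCharacter ℂ (p ^ m) → DirichletCharacter ℂ (p ^ ν), ψ = fun θ =>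
    χ * DirichletCharacter.changeLevel (pow_dvd_pow p hmν.le) θ := ⟨_, rfl⟩
  have hψθ : ∀ θ, χ * DirichletCharacter.changeLevel (pow_dvd_pow p hmν.le) θ = ψ θ := fun θ => by
    rw [hψ]
  simp only [hψθ] at h1 ⊢
  obtain ⟨M, hM⟩ : ∃ M : DirichletCharacter ℂ (p ^ m) → ℂ, M = fun θ => MP (ψ θ) κ s2 := ⟨_, rfl⟩
  have hMθ : ∀ θ, MP (ψ θ) κ s2 = M θ := fun θ => by rw [hM]
  simp only [hMθ]
  have hHM : HM ψ M s2 κ (R / 2) L η₁ C₁ ((p : ℝ) ^ m) := by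
    intro B G hG a ha hsup
    have h3 := h1 B G hG a ha hsup s2 hreg2
    simp only [hMθ] at h3
    rw [hcv, hcv, hs2re] at h3
    have e1 : L * (-2 * (1 / 2 + R / 2 / L - 1 / 2) * max a 0) = -(2 * (R / 2) * max a 0) := by
      field_simp
      ring
    have e2 : L * -η₁ = -η₁ * L := by ring
    rw [e1, e2] at h3
    exact h3
  have hcard : (Fintype.card (DirichletCharacter ℂ (p ^ m)) : ℝ) ≤ (p : ℝ) ^ m := by
    have e1 := DirichletCharacter.card_eq_totient_of_hasEnoughRootsOfUnity ℂ (p ^ m)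
    rw [← Nat.card_eq_fintype_card, e1]
    calc ((p ^ m).totient : ℝ) ≤ ((p ^ m : ℕ) : ℝ) := by exact_mod_cast Nat.totient_le _
      _ = _ := by push_cast; rfl
  have herr : ∑ θ, (‖M θ‖ / ((p ^ ν : ℕ) : ℝ)) ^ 2 ≤ 9 * (p : ℝ) ^ m := by
    have e1 : ∀ θ ∈ (univ : Finset (DirichletCharacter ℂ (p ^ m))),
        (‖M θ‖ / ((p ^ ν : ℕ) : ℝ)) ^ 2 ≤ 9 := by
      intro θ _
      rw [← hMθ]
      refine (errM hq (ψ θ) hκ hκ100 (by rw [hs2re]; linarith)).trans ?_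
      have h3 : Real.exp (-1 * Real.log ((p ^ ν : ℕ) : ℝ)) ≤ 1 := by
        apply Real.exp_le_one_iff.2
        rw [hcast, hlog, ← hLdef]
        linarith
      linarith
    refine (sum_le_sum e1).trans ?_
    rw [sum_const, card_univ, nsmul_eq_mul]
    linarith
  obtain ⟨β, hβ⟩ : ∃ β : ℂ, β = ((R / 2 : ℝ) : ℂ) - z := ⟨_, rfl⟩
  obtain ⟨β', hβ'⟩ : ∃ β' : ℂ, β' = ((R / 2 : ℝ) : ℂ) + (starRingEnd ℂ) z := ⟨_, rfl⟩
  have hβre : β.re = R / 2 - X := by rw [hβ, hX]; simp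
  have hβ're : β'.re = R / 2 + X := by rw [hβ', hX]; simp
  have hR0 : 0 ≤ R := by linarith
  have hnR : ‖((R / 2 : ℝ) : ℂ)‖ = R / 2 := by
    rw [Complex.norm_real, Real.norm_eq_abs, abs_of_nonneg (by positivity)]
  have hβn : (1 + ‖β‖) ^ 4 ≤ 16 * (1 + R) ^ 4 := by
    have h3 : ‖β‖ ≤ 1 + 2 * R := by
      rw [hβ]
      refine (norm_sub_le _ _).trans ?_
      rw [hnR]
      linarith
    calc (1 + ‖β‖) ^ 4 ≤ (2 * (1 + R)) ^ 4 :=
          pow_le_pow_left₀ (by positivity) (by linarith) 4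
      _ = _ := by ring
  have hβ'n : (1 + ‖β'‖) ^ 4 ≤ 16 * (1 + R) ^ 4 := by
    have h3 : ‖β'‖ ≤ 1 + 2 * R := by
      rw [hβ']
      refine (norm_add_le _ _).trans ?_
      rw [hnR, RCLike.norm_conj]
      linarith
    calc (1 + ‖β'‖) ^ 4 ≤ (2 * (1 + R)) ^ 4 :=
          pow_le_pow_left₀ (by positivity) (by linarith) 4
      _ = _ := by ring
  have hlq : Real.log ((p ^ ν : ℕ) : ℝ) = L := by rw [hcast, hlog, ← hLdef]
  have m1 : (s2 - s) * (Real.log ((p ^ ν : ℕ) : ℝ) : ℂ) = β := by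
    rw [hlq, hβ, hs, hs2]
    push_cast
    field_simp
    ring
  have m2 : (s2 - (1 - (starRingEnd ℂ) s)) * (Real.log ((p ^ ν : ℕ) : ℝ) : ℂ) = β' := by
    rw [hlq, hβ', hs, hs2]
    have e1 : (starRingEnd ℂ) (1 / 2 + (t : ℂ) * Complex.I + z / (L : ℂ)) =
        1 / 2 - (t : ℂ) * Complex.I + (starRingEnd ℂ) z / (L : ℂ) := by
      simp only [map_add, map_mul, map_div₀, Complex.conj_ofReal, Complex.conj_I, map_one,
        map_ofNat]
      ring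
    rw [e1]
    push_cast
    field_simp
    ring
  obtain ⟨W, hW⟩ : ∃ W, W = (1 + R) ^ 4 * Real.exp (4 * κ * R) := ⟨_, rfl⟩
  have hE24 : Real.exp (2 * κ * R) ≤ Real.exp (4 * κ * R) := by
    apply Real.exp_le_exp.2
    nlinarith [mul_nonneg hκ.le hR0]
  have hW1 : 1 ≤ W := by
    rw [hW]
    have e1 : 1 ≤ (1 + R) ^ 4 := one_le_pow₀ (by linarith)
    have e2 : 1 ≤ Real.exp (4 * κ * R) := Real.one_le_exp (by positivity)
    nlinarith
  have hsX : (s.re - 1 / 2) * Real.log ((p ^ ν : ℕ) : ℝ) = X := by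
    rw [hlq, hsre]
    field_simp
    ring
  -- the bound for one parity
  have hpar : ∀ G1 G2 : ℝ → ℂ, WG C₀ G1 → WG C₀ G2 →
      (∀ v, 1 / 2 + 3 * (κ / 3) ≤ v → G1 v = 0 ∧ G2 v = 0) →
      ∑ θ, (‖AS (ψ θ) (fun v => Complex.exp (β * v) * G1 v) s2 * M θ‖ ^ 2 +
        Real.exp (-(2 * ((s.re - 1 / 2) * Real.log ((p ^ ν : ℕ) : ℝ)))) *
        ‖AS (ψ θ) (fun v => Complex.exp (β' * v) * G2 v) s2 * M θ‖ ^ 2 +
        (‖M θ‖ / ((p ^ ν : ℕ) : ℝ)) ^ 2) ≤ (2 * A + 9) * W * (p : ℝ) ^ m := by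
    intro G1 G2 w1 w2 hv
    have hv1 : ∀ v, 1 / 2 + κ ≤ v → G1 v = 0 := fun v h => (hv v (by linarith)).1
    have hv2 : ∀ v, 1 / 2 + κ ≤ v → G2 v = 0 := fun v h => (hv v (by linarith)).2
    have g1 := shiftR (β := β) (b := 2 * Real.exp (2 * κ * R)) hHM hκ hC₁.le hP hD d1 d2 w1 hv1
      (fun a ha ha' => by
        rw [hβre]
        exact ey1 hR hX0 hXR hκ hκ100 hL3 ha ha')
    have g2 := shiftR (β := β') (b := Real.exp (2 * X) * (2 * Real.exp (2 * κ * R))) hHM hκ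
      hC₁.le hP hD d1 d2 w2 hv2 (fun a ha ha' => by
        rw [hβ're]
        exact ey2 hR hX0 hXR hκ hκ100 hL3 ha ha')
    rw [hsX, sum_add_distrib, sum_add_distrib, ← mul_sum]
    have g3 : (nn κ : ℝ) ^ 2 * (C₁ * (C₀ * KK κ D) ^ 2 * (1 + ‖β‖) ^ 4 *
        (2 * Real.exp (2 * κ * R)) * (p : ℝ) ^ m) ≤ A * W * (p : ℝ) ^ m := by
      calc _ ≤ (nn κ : ℝ) ^ 2 * (C₁ * (C₀ * KK κ D) ^ 2 * (16 * (1 + R) ^ 4) *
            (2 * Real.exp (4 * κ * R)) * (p : ℝ) ^ m) := by gcongr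
        _ = A * W * (p : ℝ) ^ m := by rw [hA, hW]; ring
    have g4 : Real.exp (-(2 * X)) * ∑ θ, ‖AS (ψ θ) (fun v => Complex.exp (β' * v) * G2 v) s2 *
        M θ‖ ^ 2 ≤ A * W * (p : ℝ) ^ m := by
      have e1 : Real.exp (-(2 * X)) * Real.exp (2 * X) = 1 := by
        rw [← Real.exp_add, neg_add_cancel, Real.exp_zero]
      calc _ ≤ Real.exp (-(2 * X)) * ((nn κ : ℝ) ^ 2 * (C₁ * (C₀ * KK κ D) ^ 2 * (1 + ‖β'‖) ^ 4 *
            (Real.exp (2 * X) * (2 * Real.exp (2 * κ * R))) * (p : ℝ) ^ m)) :=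
            mul_le_mul_of_nonneg_left g2 (Real.exp_pos _).le
        _ = (Real.exp (-(2 * X)) * Real.exp (2 * X)) * ((nn κ : ℝ) ^ 2 *
            (C₁ * (C₀ * KK κ D) ^ 2 * (1 + ‖β'‖) ^ 4 *
            (2 * Real.exp (2 * κ * R)) * (p : ℝ) ^ m)) := by ring
        _ = (nn κ : ℝ) ^ 2 * (C₁ * (C₀ * KK κ D) ^ 2 * (1 + ‖β'‖) ^ 4 *
            (2 * Real.exp (2 * κ * R)) * (p : ℝ) ^ m) := by rw [e1, one_mul]
        _ ≤ (nn κ : ℝ) ^ 2 * (C₁ * (C₀ * KK κ D) ^ 2 * (16 * (1 + R) ^ 4) *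
            (2 * Real.exp (4 * κ * R)) * (p : ℝ) ^ m) := by gcongr
        _ = A * W * (p : ℝ) ^ m := by rw [hA, hW]; ring
    have g5 : 9 * (p : ℝ) ^ m ≤ 9 * W * (p : ℝ) ^ m := by
      have := mul_le_mul_of_nonneg_right hW1 hP
      nlinarith
    have g6 : (2 * A + 9) * W * (p : ℝ) ^ m = A * W * (p : ℝ) ^ m + A * W * (p : ℝ) ^ m +
      9 * W * (p : ℝ) ^ m := by ring
    rw [g6]
    linarith
  have hreg' : Reg ((p ^ ν : ℕ) : ℝ) T' 1 s := by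
    rw [hcast]
    exact hreg
  obtain ⟨G1, G2, a1, a2, a3, a4, a5⟩ := h0 (p ^ ν) hqν 0 (by norm_num) s hreg'
  obtain ⟨G1', G2', b1, b2, b3, b4, b5⟩ := h0 (p ^ ν) hqν 1 le_rfl s hreg'
  have f0 := hpar G1 G2 a1 a2 a3
  have f1 := hpar G1' G2' b1 b2 b3
  obtain ⟨F0, hF0⟩ : ∃ F0 : DirichletCharacter ℂ (p ^ m) → ℝ, F0 = fun θ =>
    (‖AS (ψ θ) (fun v => Complex.exp (β * v) * G1 v) s2 * M θ‖ ^ 2 +
        Real.exp (-(2 * ((s.re - 1 / 2) * Real.log ((p ^ ν : ℕ) : ℝ)))) *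
        ‖AS (ψ θ) (fun v => Complex.exp (β' * v) * G2 v) s2 * M θ‖ ^ 2 +
        (‖M θ‖ / ((p ^ ν : ℕ) : ℝ)) ^ 2) := ⟨_, rfl⟩
  obtain ⟨F1, hF1⟩ : ∃ F1 : DirichletCharacter ℂ (p ^ m) → ℝ, F1 = fun θ =>
    (‖AS (ψ θ) (fun v => Complex.exp (β * v) * G1' v) s2 * M θ‖ ^ 2 +
        Real.exp (-(2 * ((s.re - 1 / 2) * Real.log ((p ^ ν : ℕ) : ℝ)))) *
        ‖AS (ψ θ) (fun v => Complex.exp (β' * v) * G2' v) s2 * M θ‖ ^ 2 +
        (‖M θ‖ / ((p ^ ν : ℕ) : ℝ)) ^ 2) := ⟨_, rfl⟩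
  have f0' : ∑ θ, F0 θ ≤ (2 * A + 9) * W * (p : ℝ) ^ m := by
    rw [hF0]
    exact f0
  have f1' : ∑ θ, F1 θ ≤ (2 * A + 9) * W * (p : ℝ) ^ m := by
    rw [hF1]
    exact f1
  have hpt : ∀ θ, ‖(ψ θ).LFunction s * M θ‖ ^ 2 ≤ 3 * (F0 θ + F1 θ) := by
    intro θ
    have hprim : (ψ θ).IsPrimitive := by
      rw [← hψθ]
      exact Pool.Agent.Y766.R3.prim_mul hpF.out hmν hχ θ
    have n0 : 0 ≤ F0 θ := by
      rw [hF0]
      positivity
    have n1 : 0 ≤ F1 θ := by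
      rw [hF1]
      positivity
    rcases (ψ θ).even_or_odd with hev | hod
    · obtain ⟨w, hw, hL⟩ := a5 (ψ θ) hprim (by rw [pow_zero]; exact hev)
      have := pw2 hq (ψ θ) G1 G2 s s2 w ((ψ θ).LFunction s) (M θ) β β' hw m1 m2 hL
      have e : F0 θ = (‖AS (ψ θ) (fun v => Complex.exp (β * v) * G1 v) s2 * M θ‖ ^ 2 +
        Real.exp (-(2 * ((s.re - 1 / 2) * Real.log ((p ^ ν : ℕ) : ℝ)))) *
        ‖AS (ψ θ) (fun v => Complex.exp (β' * v) * G2 v) s2 * M θ‖ ^ 2 +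
        (‖M θ‖ / ((p ^ ν : ℕ) : ℝ)) ^ 2) := by
        rw [hF0]
      rw [← e] at this
      linarith
    · obtain ⟨w, hw, hL⟩ := b5 (ψ θ) hprim (by rw [pow_one]; exact hod)
      have := pw2 hq (ψ θ) G1' G2' s s2 w ((ψ θ).LFunction s) (M θ) β β' hw m1 m2 hL
      have e : F1 θ = (‖AS (ψ θ) (fun v => Complex.exp (β * v) * G1' v) s2 * M θ‖ ^ 2 +
        Real.exp (-(2 * ((s.re - 1 / 2) * Real.log ((p ^ ν : ℕ) : ℝ)))) *
        ‖AS (ψ θ) (fun v => Complex.exp (β' * v) * G2' v) s2 * M θ‖ ^ 2 +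
        (‖M θ‖ / ((p ^ ν : ℕ) : ℝ)) ^ 2) := by
        rw [hF1]
      rw [← e] at this
      linarith
  have hfin : ∑ θ, ‖(ψ θ).LFunction s * M θ‖ ^ 2 ≤ 6 * (2 * A + 9) * W * (p : ℝ) ^ m := by
    refine (sum_le_sum fun θ _ => hpt θ).trans ?_
    rw [← mul_sum, sum_add_distrib]
    linarith
  refine hfin.trans (le_of_eq ?_)
  rw [hW]
  ring

end Pool.Agent.Y766.R14
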